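import Pool.Agent.TH801.LU.Eq

/-! The exponential sum over all ordinates up to `T`, in the full range of frequencies. -/

set_option autoImplicit false

open Finset MeasureTheory Complex
open scoped ComplexConjugate

namespace Pool.Agent.TH801.LU

open H370 (Zf zset mult NN mem_Zf NN_eq good_zeta)
open Pool.Agent.TH801.LR (norm_ex)

lemma Fz_step2 (X v : ℝ) (hX : 1 ≤ X) :
    Fz (2 * X) v = Fz X v + ∑ s ∈ Zf riemannZeta X (2 * X), (mult riemannZeta s : ℂ) *
      cexp (I * ((v * s.im : ℝ) : ℂ)) := by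
  unfold Fz
  rw [split (a := X) (b := 2 * X) hX (by linarith)]
  congr 1

theorem u4 (ε : ℝ) (hε : 0 < ε) : ∃ c D T0 : ℝ, 0 < c ∧ c ≤ 1 / 2 ∧ 0 < D ∧ 4 ≤ T0 ∧
    ∀ T : ℝ, T0 ≤ T → ∀ v : ℝ, D / T ≤ |v| →
      |v| ≤ c * Real.log T → ‖Fz T v‖ ≤ ε * (T * Real.log T) := by
  obtain ⟨C, hC, hz1⟩ := u1
  obtain ⟨K, hK⟩ := exists_pow_lt_of_lt_one (show 0 < ε / (2 * C) by positivity)
    (show (1 / 2 : ℝ) < 1 by norm_num)
  obtain ⟨ε1, hε1⟩ : ∃ ε1 : ℝ, ε1 = ε / (2 * (K + 1)) := ⟨_, rfl⟩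
  have hε10 : 0 < ε1 := by rw [hε1]; positivity
  obtain ⟨c, T1, hc, hc2, hT1, hsup⟩ := blk_exp ε1 hε10
  obtain ⟨P, hP⟩ : ∃ P : ℝ, P = (2 : ℝ) ^ K := ⟨_, rfl⟩
  have hP1 : 1 ≤ P := by rw [hP]; exact one_le_pow₀ (by norm_num)
  have hP0 : 0 < P := by linarith
  refine ⟨c / 2, 4 / ε1 * P, max (T1 * P) (max (4 * P) (P ^ 3)), by positivity, by linarith,
    by positivity, ?_, ?_⟩
  · have : 4 ≤ 4 * P := by linarith
    exact this.trans ((le_max_left _ _).trans (le_max_right _ _))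
  intro T hT v hv1 hv2
  have hTa : T1 * P ≤ T := (le_max_left _ _).trans hT
  have hTb : 4 * P ≤ T := (le_max_left _ _).trans ((le_max_right _ _).trans hT)
  have hTc : P ^ 3 ≤ T := (le_max_right _ _).trans ((le_max_right _ _).trans hT)
  have hT4 : 4 ≤ T := by linarith
  have hT0 : 0 < T := by linarith
  have hLT : 0 < Real.log T := Real.log_pos (by linarith)
  have key : ∀ k : ℕ, k ≤ K → ‖Fz T v‖ ≤ ‖Fz (T * (1 / 2) ^ k) v‖ +
      k * (ε1 * (T * Real.log T)) := by
    intro k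
    induction k with
    | zero => intro _; simp
    | succ k ih =>
      intro hk
      have h1 := ih (by omega)
      obtain ⟨X, hX⟩ : ∃ X : ℝ, X = T * (1 / 2) ^ (k + 1) := ⟨_, rfl⟩
      rw [← hX]
      have hXP : T / P ≤ X := by
        rw [hX, div_le_iff₀ hP0, mul_assoc]
        have h2 : (1 : ℝ) ≤ (1 / 2) ^ (k + 1) * P := by
          have h3 : ((1 : ℝ) / 2) ^ K ≤ (1 / 2) ^ (k + 1) :=
            pow_le_pow_of_le_one (by norm_num) (by norm_num) hk
          have h4 : ((1 : ℝ) / 2) ^ K * P = 1 := by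
            rw [hP, ← mul_pow]; norm_num
          calc (1 : ℝ) = (1 / 2) ^ K * P := h4.symm
            _ ≤ _ := mul_le_mul_of_nonneg_right h3 hP0.le
        exact le_mul_of_one_le_right hT0.le h2
      have hX1 : T1 ≤ X := by
        refine le_trans ?_ hXP
        rw [le_div_iff₀ hP0]; exact hTa
      have hX100 : 100 ≤ X := hT1.trans hX1
      have hX0 : 0 < X := by linarith
      have hXT : X ≤ T := by
        rw [hX]
        exact mul_le_of_le_one_right hT0.le (pow_le_one₀ (by norm_num) (by norm_num))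
      have hlX : Real.log X ≤ Real.log T := Real.log_le_log hX0 hXT
      have hlX0 : 0 ≤ Real.log X := Real.log_nonneg (by linarith)
      have hlX2 : 2 / 3 * Real.log T ≤ Real.log X := by
        have h2 : Real.log (T / P) ≤ Real.log X := Real.log_le_log (by positivity) hXP
        rw [Real.log_div hT0.ne' hP0.ne'] at h2
        have h3 : Real.log (P ^ 3) ≤ Real.log T := Real.log_le_log (by positivity) hTc
        rw [Real.log_pow] at h3
        push_cast at h3
        linarith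
      have hvc : |v| ≤ c * Real.log X := by
        have : c * (2 / 3 * Real.log T) ≤ c * Real.log X := mul_le_mul_of_nonneg_left hlX2 hc.le
        have h0 : 0 ≤ c * Real.log T := by positivity
        linarith
      have hvl : 4 / ε1 / X ≤ |v| := by
        refine le_trans ?_ hv1
        rw [div_le_div_iff₀ hX0 hT0]
        have h2 : T ≤ P * X := by
          rw [div_le_iff₀ hP0] at hXP; linarith
        calc 4 / ε1 * T ≤ 4 / ε1 * (P * X) := mul_le_mul_of_nonneg_left h2 (by positivity)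
          _ = _ := by ring
      have h2 := hsup X hX1 v hvl hvc
      have h3 : T * (1 / 2) ^ k = 2 * X := by
        rw [hX, pow_succ]; ring
      rw [h3, Fz_step2 X v (by linarith)] at h1
      have h4 := norm_add_le (Fz X v) (∑ s ∈ Zf riemannZeta X (2 * X),
        (mult riemannZeta s : ℂ) * cexp (I * ((v * s.im : ℝ) : ℂ)))
      have h5 : ε1 * (X * Real.log X) ≤ ε1 * (T * Real.log T) :=
        mul_le_mul_of_nonneg_left (mul_le_mul hXT hlX hlX0 hT0.le) hε10.le
      push_cast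
      linarith
  have h1 := key K le_rfl
  have h2 : ‖Fz (T * (1 / 2) ^ K) v‖ ≤ ε / 2 * (T * Real.log T) := by
    obtain ⟨X, hX⟩ : ∃ X : ℝ, X = T * (1 / 2) ^ K := ⟨_, rfl⟩
    rw [← hX]
    have h4 : ((1 : ℝ) / 2) ^ K * P = 1 := by
      rw [hP, ← mul_pow]; norm_num
    have hX4 : 4 ≤ X := by
      have h5 : 4 * P * (1 / 2) ^ K ≤ T * (1 / 2) ^ K :=
        mul_le_mul_of_nonneg_right hTb (by positivity)
      rw [hX]
      calc (4 : ℝ) = 4 * ((1 / 2) ^ K * P) := by rw [h4, mul_one]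
        _ = 4 * P * (1 / 2) ^ K := by ring
        _ ≤ _ := h5
    have hXT : X ≤ T := by
      rw [hX]
      exact mul_le_of_le_one_right hT0.le (pow_le_one₀ (by norm_num) (by norm_num))
    refine (Fz_le X v).trans ((hz1 X hX4).trans ?_)
    have hlX : Real.log X ≤ Real.log T := Real.log_le_log (by linarith) hXT
    have h6 : C * (1 / 2 : ℝ) ^ K ≤ ε / 2 := by
      rw [lt_div_iff₀ (by positivity)] at hK
      linarith
    calc C * (X * Real.log X) ≤ C * (X * Real.log T) := by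
          refine mul_le_mul_of_nonneg_left (mul_le_mul_of_nonneg_left hlX ?_) ?_ <;> linarith
      _ = C * (1 / 2) ^ K * (T * Real.log T) := by rw [hX]; ring
      _ ≤ _ := mul_le_mul_of_nonneg_right h6 (by positivity)
  have h3 : (K : ℝ) * (ε1 * (T * Real.log T)) ≤ ε / 2 * (T * Real.log T) := by
    have h4 : (K : ℝ) * ε1 ≤ ε / 2 := by
      rw [hε1, mul_div_assoc', div_le_div_iff₀ (by positivity) (by norm_num)]
      nlinarith
    calc (K : ℝ) * (ε1 * (T * Real.log T)) = K * ε1 * (T * Real.log T) := by ring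
      _ ≤ _ := mul_le_mul_of_nonneg_right h4 (by positivity)
  linarith

/-- frequencies of a cluster -/
lemma freq3 (b L T Y v v' u κ c0 D G : ℝ) (K K' M : ℕ) (hb : 0 < b) (hL : 1 ≤ L) (hT : 0 < T)
    (hK' : 1 ≤ K')
    (hM : 1 ≤ M) (hκ : 0 < κ) (hKK : (K : ℝ) ≤ 2 * c0 * K')
    (hYM : Y = (M : ℝ) / (4 * K')) (hgap : G * b ≤ |v - v'| * (T * L))
    (hnear : |v - v'| ≤ 2 * b / M) (hu1 : κ * L / b < |u|)
    (hu2 : |u| ≤ L / (2 * Real.pi * b) * Y) (hG : D ≤ 2 * Real.pi * κ * G)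
    (k : ℤ) (hk : k ≠ 0) (hkK : |k| ≤ K) :
    D / T ≤ |k * (2 * Real.pi * v * u - 2 * Real.pi * v' * u)| ∧
      |k * (2 * Real.pi * v * u - 2 * Real.pi * v' * u)| ≤ c0 * L := by
  have hpi := Real.pi_pos
  have hL0 : 0 < L := by linarith
  have hK0 : (0 : ℝ) < K' := by exact_mod_cast hK'
  have hM0 : (0 : ℝ) < M := by exact_mod_cast hM
  have e1 : |k * (2 * Real.pi * v * u - 2 * Real.pi * v' * u)| =
      |(k : ℝ)| * (2 * Real.pi * (|v - v'| * |u|)) := by
    have : (k : ℝ) * (2 * Real.pi * v * u - 2 * Real.pi * v' * u) =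
        k * (2 * Real.pi * ((v - v') * u)) := by ring
    rw [this, abs_mul, abs_mul, abs_mul (v - v'), abs_of_pos (by positivity : 0 < 2 * Real.pi)]
  rw [e1]
  have hk1 : (1 : ℝ) ≤ |(k : ℝ)| := by
    have : (1 : ℤ) ≤ |k| := Int.one_le_abs hk
    exact_mod_cast this
  have hk2 : |(k : ℝ)| ≤ K := by
    have : ((|k| : ℤ) : ℝ) ≤ ((K : ℤ) : ℝ) := by exact_mod_cast hkK
    rw [Int.cast_abs] at this
    simpa using this
  constructor
  · have h1 : |v - v'| * (κ * L / b) ≤ |v - v'| * |u| :=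
      mul_le_mul_of_nonneg_left hu1.le (abs_nonneg _)
    have h2 : D / T ≤ 2 * Real.pi * (|v - v'| * (κ * L / b)) := by
      rw [div_le_iff₀ hT]
      calc D ≤ 2 * Real.pi * κ * G := hG
        _ = 2 * Real.pi * κ / b * (G * b) := by field_simp
        _ ≤ 2 * Real.pi * κ / b * (|v - v'| * (T * L)) :=
            mul_le_mul_of_nonneg_left hgap (by positivity)
        _ = _ := by field_simp
    have h4 : 2 * Real.pi * (|v - v'| * (κ * L / b)) ≤ 2 * Real.pi * (|v - v'| * |u|) :=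
      mul_le_mul_of_nonneg_left h1 (by positivity)
    have h5 : 0 ≤ 2 * Real.pi * (|v - v'| * |u|) := by positivity
    calc D / T ≤ 2 * Real.pi * (|v - v'| * |u|) := h2.trans h4
      _ ≤ |(k : ℝ)| * (2 * Real.pi * (|v - v'| * |u|)) := le_mul_of_one_le_left h5 hk1
  · have h1 : |v - v'| * |u| ≤ 2 * b / M * (L / (2 * Real.pi * b) * Y) :=
      mul_le_mul hnear hu2 (abs_nonneg _) (by positivity)
    have h2 : 2 * Real.pi * (2 * b / M * (L / (2 * Real.pi * b) * Y)) = L / (2 * K') := by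
      rw [hYM]
      field_simp
      norm_num
    have h3 : 2 * Real.pi * (|v - v'| * |u|) ≤ L / (2 * K') := by
      rw [← h2]; exact mul_le_mul_of_nonneg_left h1 (by positivity)
    calc |(k : ℝ)| * (2 * Real.pi * (|v - v'| * |u|)) ≤ K * (L / (2 * K')) :=
          mul_le_mul hk2 h3 (by positivity) (Nat.cast_nonneg _)
      _ ≤ 2 * c0 * K' * (L / (2 * K')) := mul_le_mul_of_nonneg_right hKK (by positivity)
      _ = c0 * L := by field_simp

end Pool.Agent.TH801.LU
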