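import Pool.Agent.TH801.LU.Main
import Pool.Agent.TH801.LU.Eq2

/-! Sums of ordinates: the main theorem. -/

set_option autoImplicit false

open Finset MeasureTheory Complex
open scoped ComplexConjugate

namespace Pool.Agent.TH801.LU

open Pool.Agent.TH801.LR (Sx Sx_le Sx_sq cluster cell step2 card_rest cl cl_range cl_near)

/-- the ordinates: distinct pairs -/
lemma pairsA {T : ℝ} {A : Finset ℝ} (hA : A ⊆ Gam T) {P : ℝ} (h : Qpair T ≤ P) :
    ∑ x ∈ A, ∑ y ∈ A, (if |x - y| ≤ 1 / Real.log T then (1 : ℝ) else 0) ≤ P := by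
  have hnn : ∀ x y : ℝ, 0 ≤ (if |x - y| ≤ 1 / Real.log T then (1 : ℝ) else 0) := fun x y => by
    split_ifs <;> norm_num
  refine ((sum_le_sum fun x _ => sum_le_sum_of_subset_of_nonneg hA
    fun y _ _ => hnn x y).trans ?_).trans ((Gam_pairs T).trans h)
  exact sum_le_sum_of_subset_of_nonneg hA fun x _ _ => sum_nonneg fun y _ => hnn x y

/-- the image of the remaining separated indices -/
lemma card_restW {n : ℕ} (c : Fin n → ℝ) (W : Finset (Fin n)) (i j : Fin n)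
    (hinj : Set.InjOn c W) : W.card ≤ (((W.erase i).erase j).image c).card + 2 := by
  classical
  rw [card_image_of_injOn (hinj.mono (by
    intro x hx
    exact (mem_erase.1 (mem_erase.1 (mem_coe.1 hx)).2).2))]
  have h1 := pred_card_le_card_erase (s := W) (a := i)
  have h2 := pred_card_le_card_erase (s := W.erase i) (a := j)
  omega

theorem main (η : ℝ) (hη : 0 < η) : ∃ K T₀ : ℝ, 0 < K ∧ ∀ T : ℝ, T₀ ≤ T →
    ∀ (n : ℕ) (c : Fin n → ℝ) (A : Fin n → Finset ℝ),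
      (∀ i, ∀ γ ∈ A i, 0 < γ ∧ γ ≤ T ∧ ∃ s : ℂ, s.im = γ ∧ 0 < s.re ∧ s.re < 1 ∧
        riemannZeta s = 0) →
      (∀ i, η * (T * Real.log T) ≤ (A i).card) →
      ∀ i j, i ≠ j → |c j| ≤ |c i| → (∀ k, k ≠ i → |c k| ≤ |c j|) → c j ≠ 0 →
      ∀ W : Finset (Fin n), W.Nonempty →
      (∀ a ∈ W, ∀ b ∈ W, a ≠ b → K * |c j| ≤ |c a - c b| * (T * Real.log T)) → ∀ y : ℝ,
      (((Fintype.piFinset A).filter (fun x : Fin n → ℝ => |∑ k, c k * x k - y| ≤
        |c j| / (W.card * Real.log T))).card : ℝ) ≤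
      K / W.card * (|c j| / Real.sqrt (∑ k ∈ univ.erase i, c k ^ 2) +
        Real.exp (-(W.card / K))) * (∏ k, ((A k).card : ℝ)) / (T * Real.log T) := by
  classical
  obtain ⟨C1, hC1, hu1⟩ := u1
  obtain ⟨P1, T3, hP1, hT3, hu3⟩ := u3
  have hC10 : 0 < C1 := by linarith
  set S := ∑' d : ℤ, 1 / (1 + (d : ℝ) ^ 2) with hS
  have hS0 : 0 ≤ S := tsum_nonneg fun d => by positivity
  set P : ℝ := 3 * S * P1 with hP
  have hP0 : 0 ≤ P := by positivity
  -- the density constants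
  obtain ⟨η', hη'⟩ : ∃ η' : ℝ, η' = min (η / C1) 1 := ⟨_, rfl⟩
  have hη'0 : 0 < η' := by rw [hη']; exact lt_min (by positivity) one_pos
  have hη'1 : η' ≤ 1 := by rw [hη']; exact min_le_right _ _
  have hη'2 : η' ≤ η / C1 := by rw [hη']; exact min_le_left _ _
  obtain ⟨η1, hη1⟩ : ∃ η1 : ℝ, η1 = min η 1 := ⟨_, rfl⟩
  have hη10 : 0 < η1 := by rw [hη1]; exact lt_min hη one_pos
  have hη11 : η1 ≤ 1 := by rw [hη1]; exact min_le_right _ _
  have hη12 : η1 ≤ η := by rw [hη1]; exact min_le_left _ _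
  obtain ⟨κ, hκ⟩ : ∃ κ : ℝ, κ = η1 ^ 2 / (76 * (P1 + 1)) := ⟨_, rfl⟩
  have hκ0 : 0 < κ := by rw [hκ]; positivity
  have hκ2 : κ ≤ 1 / 76 := by
    rw [hκ, div_le_div_iff₀ (by positivity) (by norm_num)]
    have : η1 ^ 2 ≤ 1 := pow_le_one₀ hη10.le hη11
    nlinarith
  obtain ⟨KF, q, ε, hKF, hε, hε1, hclu⟩ := cluster η' hη'0 hη'1
  obtain ⟨c0, D0, T2, hc0, hc02, hD00, hT2, hz2⟩ := u4 ε hε
  obtain ⟨K', hK'⟩ : ∃ K' : ℕ, K' = ⌈(KF : ℝ) / (2 * c0)⌉₊ := ⟨_, rfl⟩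
  have hKK : (KF : ℝ) ≤ 2 * c0 * K' := by
    have h1 : (KF : ℝ) / (2 * c0) ≤ K' := by rw [hK']; exact Nat.le_ceil _
    rw [div_le_iff₀ (by positivity)] at h1
    linarith
  have hK'1 : 1 ≤ K' := by
    by_contra h
    have h0 : K' = 0 := by omega
    rw [h0] at hKK
    have : (1 : ℝ) ≤ KF := by exact_mod_cast hKF
    norm_num at hKK
    linarith
  obtain ⟨m1, hm12, hpar⟩ := paramC q K' hK'1
  have hm10 : (0 : ℝ) < m1 := by exact_mod_cast (by omega : 0 < m1)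
  have hpi := Real.pi_pos
  obtain ⟨B0, hB0⟩ : ∃ B0 : ℝ, B0 = 8 * Real.pi / κ := ⟨_, rfl⟩
  obtain ⟨B1, hB1⟩ : ∃ B1 : ℝ, B1 = 88 * P / η' ^ 2 := ⟨_, rfl⟩
  obtain ⟨R, hR⟩ : ∃ R : ℝ, R = 16 * K' * (q + 1) := ⟨_, rfl⟩
  obtain ⟨R1, hR1⟩ : ∃ R1 : ℝ, R1 = 1 / (2 * κ) := ⟨_, rfl⟩
  obtain ⟨G, hG⟩ : ∃ G : ℝ, G = D0 / (2 * Real.pi * κ) := ⟨_, rfl⟩
  have hG0 : 0 ≤ G := by rw [hG]; positivity
  have hGD : D0 ≤ 2 * Real.pi * κ * G := by
    rw [hG]
    refine le_of_eq ?_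
    field_simp
  have hB00 : 0 ≤ B0 := by rw [hB0]; positivity
  have hB10 : 0 ≤ B1 := by rw [hB1]; positivity
  have hR0 : 0 ≤ R := by rw [hR]; positivity
  have hR10 : 0 ≤ R1 := by rw [hR1]; positivity
  obtain ⟨K, hK⟩ : ∃ K : ℝ, K = (B0 * R + B1 * (R1 * R)) + B1 * (8 / ε) +
    (B0 + B1 * R1) * m1 + 3 * B1 * m1 + 8 / ε + m1 + G := ⟨_, rfl⟩
  have s1 : 0 ≤ B0 * R + B1 * (R1 * R) := by positivity
  have s2 : 0 ≤ B1 * (8 / ε) := by positivity
  have s3 : 0 ≤ (B0 + B1 * R1) * m1 := by positivity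
  have s4 : 0 ≤ 3 * B1 * m1 := by positivity
  have s5 : 0 ≤ 8 / ε := by positivity
  have hK0 : 0 < K := by rw [hK]; linarith
  have hGK : G ≤ K := by rw [hK]; linarith
  -- a large height
  have ev : ∀ᶠ T : ℝ in Filter.atTop, 10 ≤ κ * (T * Real.log T) := by
    have h1 : Filter.Tendsto (fun T : ℝ => T * Real.log T) Filter.atTop Filter.atTop :=
      Filter.tendsto_id.atTop_mul_atTop₀ Real.tendsto_log_atTop
    filter_upwards [h1.eventually_ge_atTop (10 / κ)] with T h3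
    rw [div_le_iff₀ hκ0] at h3; linarith
  obtain ⟨T5, hT5⟩ := Filter.eventually_atTop.1 ev
  refine ⟨K, max (max T2 T3) T5, hK0, ?_⟩
  intro T hT n c A hA hAc i j hij hji hmax hcj W hWne hgap y
  have hTT2 : T2 ≤ T := (le_max_left _ _).trans ((le_max_left _ _).trans hT)
  have hTT3 : T3 ≤ T := (le_max_right _ _).trans ((le_max_left _ _).trans hT)
  have h10 := hT5 T ((le_max_right _ _).trans hT)
  have hT100 : 100 ≤ T := hT3.trans hTT3
  have hT0 : 0 < T := by linarith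
  have hL1 : 1 ≤ Real.log T := by
    rw [Real.le_log_iff_exp_le hT0]
    have := Real.exp_one_lt_d9
    linarith
  have hAG : ∀ k, A k ⊆ Gam T := by
    intro k γ hγ
    obtain ⟨h1, h2, s, h3, h4, h5, h6⟩ := hA k γ hγ
    rw [mem_Gam]
    refine ⟨s, ?_, h3⟩
    rw [mem_ZZ, h3]
    exact ⟨h4, h5, h1, h2, h6⟩
  have hQpa := hu3 T hTT3
  have hwN0 : ∑ x ∈ Gam T, wU T x ≤ C1 * (T * Real.log T) := by
    rw [Gam_sum]; exact hu1 T (by linarith)
  have hPN0 : ∑ x ∈ Gam T, ∑ y ∈ Gam T, 1 / (1 + (Real.log T * (x - y)) ^ 2) ≤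
      3 * S * (P1 * (T * Real.log T)) := by
    refine (cell (Gam T) (Real.log T) (by linarith)).trans ?_
    exact mul_le_mul_of_nonneg_left ((Gam_pairs T).trans hQpa) (by positivity)
  have hexp0 : ∀ v : ℝ, D0 / T ≤ |v| → |v| ≤ c0 * Real.log T →
      ‖∑ x ∈ Gam T, (wU T x : ℂ) * cexp (I * ((v * x : ℝ) : ℂ))‖ ≤ ε * (T * Real.log T) := by
    intro v h1 h2
    rw [Gam_exp]
    exact hz2 T hTT2 v h1 h2
  have hpA : ∀ k, ∑ x ∈ A k, ∑ y ∈ A k, (if |x - y| ≤ 1 / Real.log T then (1 : ℝ) else 0) ≤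
      (P1 + 1) * (T * Real.log T) := by
    intro k
    refine (pairsA (hAG k) hQpa).trans ?_
    have : 0 ≤ T * Real.log T := by positivity
    linarith
  obtain ⟨L, hL⟩ : ∃ L : ℝ, L = Real.log T := ⟨_, rfl⟩
  rw [← hL] at hL1 hgap hAc h10 hwN0 hPN0 hexp0 hpA ⊢
  have hL0 : 0 < L := by linarith
  obtain ⟨t, ht⟩ : ∃ t : ℝ, t = T * L := ⟨_, rfl⟩
  have ht0 : 0 < t := by rw [ht]; positivity
  obtain ⟨N, hN⟩ : ∃ N : ℝ, N = C1 * t := ⟨_, rfl⟩
  have hN0 : 0 < N := by rw [hN]; positivity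
  have htN : t ≤ N := by rw [hN]; exact le_mul_of_one_le_left ht0.le hC1
  have hwN : ∑ x ∈ Gam T, wU T x ≤ N := by rw [hN, ht]; exact hwN0
  have hPN : ∑ x ∈ Gam T, ∑ y ∈ Gam T, 1 / (1 + (L * (x - y)) ^ 2) ≤ P * N := by
    refine hPN0.trans ?_
    rw [← ht, hP, mul_assoc (3 * S)]
    exact mul_le_mul_of_nonneg_left (mul_le_mul_of_nonneg_left htN hP1.le) (by positivity)
  have hAη : ∀ k, η' * N ≤ (A k).card := by
    intro k
    refine le_trans ?_ (hAc k)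
    calc η' * N ≤ η / C1 * N := mul_le_mul_of_nonneg_right hη'2 hN0.le
      _ = η * (T * L) := by rw [hN, ht]; field_simp
  have hone : ∀ k, ∀ v : ℝ, |v| ≤ κ * L → ‖Sx (A k) (2 * Real.pi * v)‖ ≤
      (A k).card * Real.exp (-(2 * κ ^ 2 * min 1 ((v * T) ^ 2))) := by
    intro k v hv
    refine one (A k) L T (P1 + 1) η1 κ hL0 hT0 (by linarith) hη10 hκ (by linarith) h10
      (fun y hy => ⟨(hA k y hy).1, (hA k y hy).2.1⟩) (hpA k) ?_ v hv
    refine le_trans ?_ (hAc k)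
    exact mul_le_mul_of_nonneg_right hη12 (by positivity)
  have hb : 0 < |c j| := abs_pos.2 hcj
  have hinj : Set.InjOn c W := by
    intro a ha a' ha' haa
    by_contra hne
    have h1 := hgap a (mem_coe.1 ha) a' (mem_coe.1 ha') hne
    rw [haa, sub_self, abs_zero, zero_mul] at h1
    have : 0 < K * |c j| := by positivity
    linarith
  obtain ⟨m, hm⟩ : ∃ m : ℕ, m = W.card := ⟨_, rfl⟩
  have hm1' : 1 ≤ m := by
    rw [hm]
    exact card_pos.2 hWne
  rw [← hm]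
  have hm0 : (0 : ℝ) < m := by exact_mod_cast hm1'
  have hmr1 : (1 : ℝ) ≤ m := by exact_mod_cast hm1'
  obtain ⟨D, hD⟩ : ∃ D : ℝ, D = |c j| / Real.sqrt (∑ k ∈ univ.erase i, c k ^ 2) := ⟨_, rfl⟩
  have hD0 : 0 ≤ D := by rw [hD]; positivity
  obtain ⟨Z, hZ⟩ : ∃ Z : ℝ, Z = ∏ k, ((A k).card : ℝ) := ⟨_, rfl⟩
  have hZ0 : 0 ≤ Z := by rw [hZ]; exact prod_nonneg fun _ _ => Nat.cast_nonneg _
  have hA1 : ∀ k, A k ⊆ Gam T ∧ η' * N ≤ (A k).card := fun k => ⟨hAG k, hAη k⟩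
  by_cases hmm : m1 ≤ m
  · -- many distinct coefficients
    obtain ⟨M, hM1, hY1, hYm, hYR, hSw⟩ := hpar m hmm
    obtain ⟨Y, hY⟩ : ∃ Y : ℝ, Y = (M : ℝ) / (4 * K') := ⟨_, rfl⟩
    rw [← hY] at hY1 hYm hYR
    obtain ⟨rest, hrest⟩ : ∃ rest : Finset (Fin n), rest = (univ.erase i).erase j := ⟨_, rfl⟩
    obtain ⟨VV, hVV⟩ : ∃ VV : Finset ℝ, VV = ((W.erase i).erase j).image c := ⟨_, rfl⟩
    have hVsub : VV ⊆ rest.image c := by
      rw [hVV, hrest]
      exact image_subset_image (erase_subset_erase _ (erase_subset_erase _ (subset_univ _)))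
    have hVc : m ≤ VV.card + 2 := by
      rw [hm, hVV]; exact card_restW c W i j hinj
    have hVb : ∀ v ∈ VV, |v| ≤ |c j| := by
      intro v hv
      rw [hVV] at hv
      obtain ⟨k, hk, rfl⟩ := mem_image.1 hv
      exact hmax k (mem_erase.1 (mem_erase.1 hk).2).1
    obtain ⟨κc, hκc⟩ : ∃ κc : ℝ, κc = (1 - ε) ^ (VV.card - q * (M + 1)) := ⟨_, rfl⟩
    have hκc0 : 0 ≤ κc := by rw [hκc]; exact pow_nonneg (by linarith) _
    have hκcs : κc ≤ 8 / ε * (1 / m) * Real.exp (-(ε / 8 * m)) := by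
      rw [hκc]
      exact sav3 ε hε hε1 _ m hm0 (hSw _ hVc)
    obtain ⟨κ1, hκ10, hκ1D, hst⟩ := stepA c A (Gam T) N P L T η' κ Y κc y t
      (|c j| / (m * L)) hL0 hT0 ht htN hP0 hη'0 hκ0 hκ2 h10 hPN hAG hAη i j hij hji hmax hb hY1
      hκc0 (by
        rw [div_le_div_iff₀ (by positivity) (by positivity)]
        have h1 : L * Y ≤ m * L := by
          rw [mul_comm (m : ℝ) L]; exact mul_le_mul_of_nonneg_left hYm hL0.le
        exact mul_le_mul_of_nonneg_left h1 hb.le) hone (by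
        intro u hu1 hu2
        rw [← hrest, hκc]
        refine step2 c A (Gam T) (wU T) N η' ε KF q hN0 (fun x hx => wU_one hx) hwN hε hε1 hclu
          hA1 i rest VV hVsub
          (cl |c j| M) (M + 1) (fun v hv => cl_range _ hb M v (hVb v hv)) u ?_
        intro v hv v' hv' hvv hcell k hk hkK
        have hv2 := hv
        have hv2' := hv'
        rw [hVV] at hv2 hv2'
        obtain ⟨a, ha1, ha⟩ := mem_image.1 hv2
        obtain ⟨a', ha1', ha'⟩ := mem_image.1 hv2'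
        have hg : G * |c j| ≤ |v - v'| * (T * L) := by
          rw [← ha, ← ha']
          refine le_trans (mul_le_mul_of_nonneg_right hGK hb.le) (hgap a
            (mem_erase.1 (mem_erase.1 ha1).2).2 a' (mem_erase.1 (mem_erase.1 ha1').2).2 ?_)
          intro h
          apply hvv
          rw [← ha, ← ha', h]
        obtain ⟨f1, f2⟩ := freq3 |c j| L T Y v v' u κ c0 D0 G KF K' M hb hL1 hT0 hK'1 hM1 hκ0 hKK
          hY hg (cl_near _ hb M hM1 v v' (hVb v hv) (hVb v' hv') hcell) hu1 hu2 hGD k hk hkK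
        have h3 := hexp0 _ f1 f2
        rw [← ht] at h3
        exact h3.trans (mul_le_mul_of_nonneg_left htN hε.le))
    rw [← hD, ← hR1] at hκ1D
    rw [← hD, ← hZ, ← hB0, ← hB1] at hst
    rw [← hD, ← hZ, ← ht]
    have hE2 : Real.exp (-(ε / 8 * m)) ≤ Real.exp (-(m / K)) := by
      apply Real.exp_le_exp.2
      have h1 : 8 / ε ≤ K := by rw [hK]; linarith
      have h2 : (m : ℝ) / K ≤ m / (8 / ε) := div_le_div_of_nonneg_left hm0.le (by positivity) h1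
      have h3 : (m : ℝ) / (8 / ε) = ε / 8 * m := by field_simp
      linarith
    refine finA _ B0 B1 D (1 / Y) R1 κ1 κc Z t m R _ K ε hB00 hB10 hst hκ1D hR10
      (by rw [hR]; exact hYR) (by positivity) hm0 (hκcs.trans ?_) hD0 hZ0 ht0 (Real.exp_pos _).le hε
      hR0 (by rw [hK]; linarith) (by rw [hK]; linarith)
    exact mul_le_mul_of_nonneg_left hE2 (by positivity)
  · -- few distinct coefficients
    obtain ⟨κ1, hκ10, hκ1D, hst⟩ := stepA c A (Gam T) N P L T η' κ 1 1 y t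
      (|c j| / (m * L)) hL0 hT0 ht htN hP0 hη'0 hκ0 hκ2 h10 hPN hAG hAη i j hij hji hmax hb le_rfl
      zero_le_one (by
        rw [mul_one]
        apply div_le_div_of_nonneg_left hb.le hL0
        exact le_mul_of_one_le_left hL0.le hmr1) hone (by
        intro u _ _
        rw [one_mul]
        exact prod_le_prod (fun _ _ => norm_nonneg _) fun _ _ => Sx_le _ _)
    rw [← hD, ← hR1] at hκ1D
    rw [← hD, ← hZ, ← hB0, ← hB1] at hst
    rw [← hD, ← hZ, ← ht]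
    have hmm1 : (m : ℝ) ≤ m1 := by
      push Not at hmm
      exact_mod_cast hmm.le
    have hE2 : 1 / 3 ≤ Real.exp (-(m / K)) := by
      have h1 : (m : ℝ) / K ≤ 1 := by
        rw [div_le_one hK0, hK]
        linarith
      have h2 : Real.exp (-1) ≤ Real.exp (-(m / K)) := Real.exp_le_exp.2 (by linarith)
      have h3 : 1 / 3 ≤ Real.exp (-1) := by
        rw [Real.exp_neg, ← one_div]
        apply one_div_le_one_div_of_le (Real.exp_pos _)
        have := Real.exp_one_lt_d9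
        linarith
      exact h3.trans h2
    exact finB _ B0 B1 D R1 κ1 Z t m m1 _ K hB00 hB10 hst hκ1D hm0 hmm1 hD0 hZ0 ht0 hE2
      (by rw [hK]; linarith) (by rw [hK]; linarith)

end Pool.Agent.TH801.LU
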