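import Pool.Agent.TH801.LR.Cnt

/-! The number of near relations with an arbitrary target. -/

set_option autoImplicit false

open Finset MeasureTheory Complex
open scoped ComplexConjugate

namespace Pool.Agent.TH801.LU

open H177.Lat (tri tri_nonneg tri_zero tri_in tri_integrable KK KK_nonneg KK_le KK_sq)
open Pool.Agent.TH801.LR (Sx Sx_le Sx_sq Sx_cont l2 prod_Sx KK_near ar3)

lemma am (a d F : ℝ) (h : F = a ^ 2 + d ^ 2) : a * d ≤ F / 2 := by
  nlinarith [sq_nonneg (a - d)]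

lemma ar5 (a d R f Q κ : ℝ) (had : a * d ≤ f / 2) (hR0 : 0 ≤ R) (hRQ : R ≤ κ * Q) (hf : 0 ≤ f) :
    a * d * R ≤ Q / 2 * (κ * f) := by
  have h1 : a * d * R ≤ f / 2 * (κ * Q) := mul_le_mul had hRQ hR0 (by positivity)
  linarith

/-- the integral of a Gaussian -/
lemma gau (a : ℝ) (ha : 0 < a) : Integrable (fun u : ℝ => Real.exp (-a * u ^ 2)) ∧
    ∫ u : ℝ, Real.exp (-a * u ^ 2) ≤ 2 / Real.sqrt a := by
  refine ⟨integrable_exp_neg_mul_sq ha, ?_⟩
  rw [integral_gaussian]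
  rw [Real.sqrt_div Real.pi_pos.le]
  apply div_le_div_of_nonneg_right _ (Real.sqrt_nonneg _)
  rw [Real.sqrt_le_left (by norm_num)]
  have := Real.pi_lt_four
  linarith

/-- the integral of the majorant -/
lemma maj_int (F : ℝ → ℝ) (hFc : Continuous F) (E0 E a κ1 κ Q Q1 M : ℝ) (hE0 : 0 < E0)
    (hE : E0 ≤ E) (ha : 0 < a) (hκ1 : 0 ≤ κ1) (hκ : 0 ≤ κ) (hQ0 : 0 ≤ Q) (hQ10 : 0 ≤ Q1)
    (hFint : ∀ e : ℝ, E0 ≤ e → ∫ u in (-e)..e, F u ≤ 88 * e * M) :
    Integrable (fun u : ℝ => Q1 * Real.exp (-a * u ^ 2) +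
      Q / 2 * (κ1 * (Set.Icc (-E0) E0).indicator F u + κ * (Set.Icc (-E) E).indicator F u)) ∧
    ∫ u : ℝ, (Q1 * Real.exp (-a * u ^ 2) +
      Q / 2 * (κ1 * (Set.Icc (-E0) E0).indicator F u + κ * (Set.Icc (-E) E).indicator F u)) ≤
      Q1 * (2 / Real.sqrt a) + 44 * M * (κ1 * E0 + κ * E) * Q := by
  have hEpos : 0 < E := hE0.trans_le hE
  have hind : ∀ e : ℝ, Integrable ((Set.Icc (-e) e).indicator F) := by
    intro e
    rw [integrable_indicator_iff measurableSet_Icc]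
    exact hFc.integrableOn_Icc
  obtain ⟨hgi, hgv⟩ := gau a ha
  have hsec : Integrable (fun u : ℝ =>
      Q / 2 * (κ1 * (Set.Icc (-E0) E0).indicator F u + κ * (Set.Icc (-E) E).indicator F u)) :=
    (((hind E0).const_mul κ1).add ((hind E).const_mul κ)).const_mul _
  refine ⟨(hgi.const_mul Q1).add hsec, ?_⟩
  have hindint : ∀ e : ℝ, 0 < e → ∫ u, (Set.Icc (-e) e).indicator F u = ∫ u in (-e)..e, F u := by
    intro e he
    rw [integral_indicator measurableSet_Icc, integral_Icc_eq_integral_Ioc,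
      ← intervalIntegral.integral_of_le (by linarith)]
  have e2 := integral_add (hgi.const_mul Q1) hsec
  have e3 : ∫ u, (κ1 * (Set.Icc (-E0) E0).indicator F u +
        κ * (Set.Icc (-E) E).indicator F u) =
      (∫ u, κ1 * (Set.Icc (-E0) E0).indicator F u) +
      ∫ u, κ * (Set.Icc (-E) E).indicator F u :=
    integral_add ((hind E0).const_mul κ1) ((hind E).const_mul κ)
  rw [e2, integral_const_mul, integral_const_mul, e3, integral_const_mul, integral_const_mul,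
    hindint E0 hE0, hindint E hEpos]
  have h1 := mul_le_mul_of_nonneg_left (hFint E0 le_rfl) hκ1
  have h2 := mul_le_mul_of_nonneg_left (hFint E hE) hκ
  have h3 := mul_le_mul_of_nonneg_left (add_le_add h1 h2) (show 0 ≤ Q / 2 by positivity)
  have h4 := mul_le_mul_of_nonneg_left hgv hQ10
  refine (add_le_add h4 h3).trans (le_of_eq ?_)
  ring

lemma three_a (x t1 t2 t3 : ℝ) (h : x ≤ t1) (h2 : 0 ≤ t2) (h3 : 0 ≤ t3) : x ≤ t1 + (t2 + t3) := by
  linarith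

lemma three_b (x t1 t2 t3 : ℝ) (h : x ≤ t2) (h1 : 0 ≤ t1) (h3 : 0 ≤ t3) : x ≤ t1 + (t2 + t3) := by
  linarith

lemma three_c (x t1 t2 t3 : ℝ) (h : x ≤ t3) (h1 : 0 ≤ t1) (h2 : 0 ≤ t2) : x ≤ t1 + (t2 + t3) := by
  linarith

lemma mul_dist (Q p r : ℝ) : Q / 2 * (p + r) = Q / 2 * p + Q / 2 * r := by ring

lemma last_step (C E M s S a' Q1 : ℝ) (h : C * (E / 2) ≤ Q1 * (2 / s) + 44 * M * S * a') :
    C * E ≤ 4 / s * Q1 + 88 * M * S * a' := by
  have e9 : 4 / s * Q1 = 2 * (Q1 * (2 / s)) := by ring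
  rw [e9]
  linarith

/-- the product over all factors -/
lemma factor {n : ℕ} (A : Fin n → Finset ℝ) (c : Fin n → ℝ) (i0 i1 : Fin n) (h01 : i0 ≠ i1)
    (u : ℝ) : ‖∏ i, Sx (A i) (2 * Real.pi * c i * u)‖ =
      ‖Sx (A i0) (2 * Real.pi * c i0 * u)‖ * ‖Sx (A i1) (2 * Real.pi * c i1 * u)‖ *
        ∏ i ∈ (univ.erase i0).erase i1, ‖Sx (A i) (2 * Real.pi * c i * u)‖ := by
  rw [norm_prod, ← mul_prod_erase univ _ (mem_univ i0),
    ← mul_prod_erase (univ.erase i0) _ (mem_erase.2 ⟨h01.symm, mem_univ i1⟩)]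
  exact (mul_assoc _ _ _).symm

lemma factor1 {n : ℕ} (A : Fin n → Finset ℝ) (c : Fin n → ℝ) (i0 : Fin n)
    (u : ℝ) : ‖∏ i, Sx (A i) (2 * Real.pi * c i * u)‖ =
      ‖Sx (A i0) (2 * Real.pi * c i0 * u)‖ *
        ∏ i ∈ univ.erase i0, ‖Sx (A i) (2 * Real.pi * c i * u)‖ := by
  rw [norm_prod, ← mul_prod_erase univ _ (mem_univ i0)]

/-- the sum over all tuples -/
lemma tup {n : ℕ} (A : Fin n → Finset ℝ) (c : Fin n → ℝ) (y u : ℝ) :
    ∑ x ∈ Fintype.piFinset A, Real.cos (2 * Real.pi * u * (∑ i, c i * x i - y)) ≤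
      ‖∏ i, Sx (A i) (2 * Real.pi * c i * u)‖ := by
  have e2 : ∑ x ∈ Fintype.piFinset A, Real.cos (2 * Real.pi * u * (∑ i, c i * x i - y)) =
      (cexp (((-(2 * Real.pi * u * y) : ℝ) : ℂ) * I) *
        ∏ i, Sx (A i) (2 * Real.pi * c i * u)).re := by
    rw [prod_Sx, mul_sum, Complex.re_sum]
    refine sum_congr rfl fun x _ => ?_
    rw [← Complex.exp_add]
    have e4 : 2 * Real.pi * u * (∑ i, c i * x i - y) = -(2 * Real.pi * u * y) +
          ∑ i, 2 * Real.pi * c i * u * x i := by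
        rw [mul_sub, mul_sum]
        have : ∑ i, 2 * Real.pi * u * (c i * x i) = ∑ i, 2 * Real.pi * c i * u * x i :=
          sum_congr rfl fun i _ => by ring
        rw [this]; ring
    have e3 : ((-(2 * Real.pi * u * y) : ℝ) : ℂ) * I +
        I * ((∑ i, 2 * Real.pi * c i * u * x i : ℝ) : ℂ) =
        ((2 * Real.pi * u * (∑ i, c i * x i - y) : ℝ) : ℂ) * I := by
      rw [e4, Complex.ofReal_add, add_mul, mul_comm I]
    rw [e3, Complex.exp_ofReal_mul_I_re]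
  rw [e2]
  refine (Complex.re_le_norm _).trans (le_of_eq ?_)
  rw [norm_mul, Complex.norm_exp_ofReal_mul_I, one_mul]

theorem count2 {n : ℕ} (c : Fin n → ℝ) (A : Fin n → Finset ℝ) (Γ : Finset ℝ) (N P L : ℝ)
    (hL : 0 < L) (hP : ∑ x ∈ Γ, ∑ y ∈ Γ, 1 / (1 + (L * (x - y)) ^ 2) ≤ P * N)
    (hA : ∀ i, A i ⊆ Γ) (i0 i1 : Fin n) (h01 : i0 ≠ i1) (b : ℝ) (hb0 : b ≤ |c i0|)
    (hb1 : b ≤ |c i1|) (u1 U0 E0 E a κ1 κ y : ℝ) (hE0 : 0 < E0) (hUE : U0 ≤ E0)
    (hE : E0 ≤ E) (hbE : L ≤ 2 * Real.pi * b * E0)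
    (ha : 0 < a) (hκ1 : 0 ≤ κ1) (hκ : 0 ≤ κ)
    (hg : ∀ u : ℝ, |u| ≤ u1 → ∏ i ∈ univ.erase i0, ‖Sx (A i) (2 * Real.pi * c i * u)‖ ≤
        Real.exp (-a * u ^ 2) * ∏ i ∈ univ.erase i0, ((A i).card : ℝ))
    (hm : ∀ u : ℝ, u1 < |u| → |u| ≤ U0 →
      ∏ i ∈ (univ.erase i0).erase i1, ‖Sx (A i) (2 * Real.pi * c i * u)‖ ≤
        κ1 * ∏ i ∈ (univ.erase i0).erase i1, ((A i).card : ℝ))
    (hcl : ∀ u : ℝ, U0 < |u| → |u| ≤ E →
      ∏ i ∈ (univ.erase i0).erase i1, ‖Sx (A i) (2 * Real.pi * c i * u)‖ ≤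
        κ * ∏ i ∈ (univ.erase i0).erase i1, ((A i).card : ℝ)) :
    (((Fintype.piFinset A).filter (fun x : Fin n → ℝ =>
      |∑ i, c i * x i - y| ≤ 1 / (2 * Real.pi * E))).card : ℝ) * E ≤
      4 / Real.sqrt a * ∏ i, ((A i).card : ℝ) +
      88 * (P * N) * (κ1 * E0 + κ * E) * ∏ i ∈ (univ.erase i0).erase i1, ((A i).card : ℝ) := by
  classical
  have hEpos : 0 < E := hE0.trans_le hE
  have hpi0 := Real.pi_pos
  obtain ⟨Q, hQ⟩ : ∃ Q : ℝ, Q = ∏ i ∈ (univ.erase i0).erase i1, ((A i).card : ℝ) := ⟨_, rfl⟩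
  obtain ⟨Q1, hQ1⟩ : ∃ Q1 : ℝ, Q1 = ∏ i, ((A i).card : ℝ) := ⟨_, rfl⟩
  obtain ⟨Q2, hQ2⟩ : ∃ Q2 : ℝ, Q2 = ∏ i ∈ univ.erase i0, ((A i).card : ℝ) := ⟨_, rfl⟩
  have hQ0 : 0 ≤ Q := by rw [hQ]; exact prod_nonneg fun _ _ => Nat.cast_nonneg _
  have hQ10 : 0 ≤ Q1 := by rw [hQ1]; exact prod_nonneg fun _ _ => Nat.cast_nonneg _
  have hQ1e : Q1 = ((A i0).card : ℝ) * Q2 := by
    rw [hQ1, hQ2]; exact (mul_prod_erase univ _ (mem_univ i0)).symm
  rw [← hQ2] at hg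
  rw [← hQ] at hm hcl
  rw [← hQ1, ← hQ]
  obtain ⟨F, hF⟩ : ∃ F : ℝ → ℝ, F = fun u => ‖Sx (A i0) (2 * Real.pi * c i0 * u)‖ ^ 2 +
    ‖Sx (A i1) (2 * Real.pi * c i1 * u)‖ ^ 2 := ⟨_, rfl⟩
  have hFc : Continuous F := by
    have h1 := Sx_cont (A i0)
    have h2 := Sx_cont (A i1)
    rw [hF]
    fun_prop
  have hF0 : ∀ u, 0 ≤ F u := fun u => by rw [hF]; positivity
  have hFm : ∀ u, ‖Sx (A i0) (2 * Real.pi * c i0 * u)‖ * ‖Sx (A i1) (2 * Real.pi * c i1 * u)‖ ≤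
      F u / 2 := fun u => am _ _ _ (by rw [hF])
  -- integrals of F
  have hFint : ∀ e : ℝ, E0 ≤ e → ∫ u in (-e)..e, F u ≤ 88 * e * (P * N) := by
    intro e he
    have he0 : 0 < e := hE0.trans_le he
    have hbb : ∀ j : Fin n, b ≤ |c j| → L ≤ 2 * Real.pi * |c j| * e := by
      intro j hj
      refine hbE.trans ?_
      have h1 : b * E0 ≤ |c j| * e := mul_le_mul hj he hE0.le (abs_nonneg _)
      calc 2 * Real.pi * b * E0 = 2 * Real.pi * (b * E0) := by ring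
        _ ≤ 2 * Real.pi * (|c j| * e) := mul_le_mul_of_nonneg_left h1 (by positivity)
        _ = _ := by ring
    have h1 := l2 Γ N P L hL hP (A i0) (hA i0) (c i0) e he0 (hbb i0 hb0)
    have h2 := l2 Γ N P L hL hP (A i1) (hA i1) (c i1) e he0 (hbb i1 hb1)
    have c0 : Continuous fun u : ℝ => ‖Sx (A i0) (2 * Real.pi * c i0 * u)‖ ^ 2 := by
      have := Sx_cont (A i0); fun_prop
    have c1 : Continuous fun u : ℝ => ‖Sx (A i1) (2 * Real.pi * c i1 * u)‖ ^ 2 := by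
      have := Sx_cont (A i1); fun_prop
    have h3 : ∫ u in (-e)..e, F u = (∫ u in (-e)..e, ‖Sx (A i0) (2 * Real.pi * c i0 * u)‖ ^ 2) +
        ∫ u in (-e)..e, ‖Sx (A i1) (2 * Real.pi * c i1 * u)‖ ^ 2 := by
      rw [hF]
      exact intervalIntegral.integral_add (c0.intervalIntegrable _ _) (c1.intervalIntegrable _ _)
    rw [h3]
    refine (add_le_add h1 h2).trans (le_of_eq ?_)
    ring
  clear hF
  obtain ⟨hGi, hGint⟩ := maj_int F hFc E0 E a κ1 κ Q Q1 (P * N) hE0 hE ha hκ1 hκ hQ0 hQ10 hFint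
  obtain ⟨G, hG⟩ : ∃ G : ℝ → ℝ, G = fun u => Q1 * Real.exp (-a * u ^ 2) +
    Q / 2 * (κ1 * (Set.Icc (-E0) E0).indicator F u + κ * (Set.Icc (-E) E).indicator F u) :=
    ⟨_, rfl⟩
  have hGu : ∀ u, G u = Q1 * Real.exp (-a * u ^ 2) +
      (Q / 2 * (κ1 * (Set.Icc (-E0) E0).indicator F u) +
        Q / 2 * (κ * (Set.Icc (-E) E).indicator F u)) := by
    intro u
    rw [hG, ← mul_dist]
  rw [← hG] at hGi
  have hGint2 : ∫ u, G u ≤ Q1 * (2 / Real.sqrt a) + 44 * (P * N) * (κ1 * E0 + κ * E) * Q := by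
    rw [hG]; exact hGint
  clear hGint hG
  have hindn : ∀ e u : ℝ, 0 ≤ (Set.Icc (-e) e).indicator F u := fun e u =>
    Set.indicator_nonneg (fun u _ => hF0 u) u
  have t1 : ∀ u, 0 ≤ Q / 2 * (κ1 * (Set.Icc (-E0) E0).indicator F u) := fun u =>
    mul_nonneg (by linarith) (mul_nonneg hκ1 (hindn _ _))
  have t2 : ∀ u, 0 ≤ Q / 2 * (κ * (Set.Icc (-E) E).indicator F u) := fun u =>
    mul_nonneg (by linarith) (mul_nonneg hκ (hindn _ _))
  have t3 : ∀ u, 0 ≤ Q1 * Real.exp (-a * u ^ 2) := fun u => mul_nonneg hQ10 (Real.exp_pos _).le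
  -- pointwise bound of the product
  have hprod : ∀ u : ℝ, |u| ≤ E → ‖∏ i, Sx (A i) (2 * Real.pi * c i * u)‖ ≤ G u := by
    intro u hu
    rw [hGu]
    by_cases hu1 : |u| ≤ u1
    · refine three_a _ _ _ _ ?_ (t1 u) (t2 u)
      rw [factor1 A c i0 u, hQ1e]
      refine (mul_le_mul (Sx_le _ _) (hg u hu1) (prod_nonneg fun _ _ => norm_nonneg _)
        (Nat.cast_nonneg _)).trans (le_of_eq ?_)
      ring
    · rw [not_le] at hu1
      rw [factor A c i0 i1 h01 u]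
      have hR0 : 0 ≤ ∏ i ∈ (univ.erase i0).erase i1, ‖Sx (A i) (2 * Real.pi * c i * u)‖ :=
        prod_nonneg fun _ _ => norm_nonneg _
      by_cases hu2 : |u| ≤ U0
      · have h1 := ar5 _ _ _ (F u) Q κ1 (hFm u) hR0 (hm u hu1 hu2) (hF0 u)
        have e4 : (Set.Icc (-E0) E0).indicator F u = F u :=
          Set.indicator_of_mem (Set.mem_Icc.2 (abs_le.1 (hu2.trans hUE))) _
        refine three_b _ _ _ _ ?_ (t3 u) (t2 u)
        rw [e4]; exact h1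
      · rw [not_le] at hu2
        have h1 := ar5 _ _ _ (F u) Q κ (hFm u) hR0 (hcl u hu2 hu) (hF0 u)
        have e4 : (Set.Icc (-E) E).indicator F u = F u :=
          Set.indicator_of_mem (Set.mem_Icc.2 (abs_le.1 hu)) _
        refine three_c _ _ _ _ ?_ (t3 u) (t1 u)
        rw [e4]; exact h1
  have hG0 : ∀ u, 0 ≤ G u := fun u => by
    rw [hGu]; exact add_nonneg (t3 u) (add_nonneg (t1 u) (t2 u))
  have hti : ∀ x : ℝ, Integrable (fun v => tri E v * Real.cos (2 * Real.pi * v * x)) :=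
    fun x => tri_integrable hEpos (by fun_prop)
  have hsum : ∑ x ∈ Fintype.piFinset A, KK E (∑ i, c i * x i - y) ≤ ∫ u, G u := by
    have e1 : ∑ x ∈ Fintype.piFinset A, KK E (∑ i, c i * x i - y) =
        ∫ u, ∑ x ∈ Fintype.piFinset A,
          tri E u * Real.cos (2 * Real.pi * u * (∑ i, c i * x i - y)) := by
      rw [integral_finsetSum _ fun x _ => hti _]
      rfl
    rw [e1]
    refine integral_mono (integrable_finsetSum _ fun x _ => hti _) hGi ?_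
    intro u
    show ∑ x ∈ Fintype.piFinset A,
      tri E u * Real.cos (2 * Real.pi * u * (∑ i, c i * x i - y)) ≤ G u
    rw [← mul_sum]
    rcases le_or_gt (|u|) E with hu | hu
    · have htr1 : tri E u ≤ 1 := by
        unfold tri
        apply max_le (by norm_num)
        have : 0 ≤ |u| / E := by positivity
        linarith
      have htr0 := tri_nonneg E u
      exact (ar3 _ _ _ htr0 htr1 (tup A c y u) (norm_nonneg _)).trans (hprod u hu)
    · rw [tri_zero hEpos hu.le, zero_mul]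
      exact hG0 u
  have hlow : (((Fintype.piFinset A).filter (fun x : Fin n → ℝ =>
      |∑ i, c i * x i - y| ≤ 1 / (2 * Real.pi * E))).card : ℝ) * (E / 2) ≤
      ∑ x ∈ Fintype.piFinset A, KK E (∑ i, c i * x i - y) := by
    rw [← nsmul_eq_mul, ← sum_const]
    refine le_trans (sum_le_sum fun x hx => ?_)
      (sum_le_sum_of_subset_of_nonneg (filter_subset _ _) fun x _ _ => KK_nonneg hEpos _)
    rw [mem_filter] at hx
    apply KK_near hEpos
    have h1 := hx.2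
    rw [le_div_iff₀ (by positivity)] at h1
    calc 2 * Real.pi * E * |∑ i, c i * x i - y| = |∑ i, c i * x i - y| * (2 * Real.pi * E) := by
          ring
      _ ≤ 1 := h1
  exact last_step _ E (P * N) _ _ Q Q1 ((hlow.trans hsum).trans hGint2)

end Pool.Agent.TH801.LU
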