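import Pool.Agent.TH801.LU.Ex
import Pool.Agent.TH850.UV.NVh

/-! The exponential sum over all ordinates, for all frequencies between a large multiple of `1 / T`
and a small multiple of `log T`. -/

set_option autoImplicit false

open Finset MeasureTheory Complex
open scoped ComplexConjugate

namespace Pool.Agent.TH801.LU

open H370 (Zf zset mult NN mem_Zf NN_eq good_zeta)
open Pool.Agent.TH801.LR (norm_ex)
open Pool.Agent.TH850.UV (cnt NS mS nv cnt_eq sq_int)

/-- kernel of a window -/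
noncomputable def kap (h v : ℝ) : ℂ := ∫ t in (-h)..0, cexp (I * ((v * t : ℝ) : ℂ))

lemma ec (v : ℝ) : Continuous (fun t : ℝ => cexp (I * ((v * t : ℝ) : ℂ))) := by fun_prop

lemma kap_low (h v : ℝ) (hh : 0 < h) (hv : |v| * h ≤ 1) : h / 2 ≤ ‖kap h v‖ := by
  have h1 : (kap h v).re = ∫ t in (-h)..0, Real.cos (v * t) := by
    have h2 := Complex.reCLM.intervalIntegral_comp_comm
      ((ec v).intervalIntegrable (μ := volume) (-h) 0)
    unfold kap
    rw [← Complex.reCLM_apply, ← h2]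
    refine intervalIntegral.integral_congr fun t _ => ?_
    show (cexp (I * ((v * t : ℝ) : ℂ))).re = Real.cos (v * t)
    rw [mul_comm I, Complex.exp_ofReal_mul_I_re]
  have h3 : h / 2 ≤ ∫ t in (-h)..0, Real.cos (v * t) := by
    have h4 : ∫ t in (-h)..0, (1 / 2 : ℝ) = h / 2 := by
      rw [intervalIntegral.integral_const, smul_eq_mul]; ring
    rw [← h4]
    refine intervalIntegral.integral_mono_on (by linarith)
      (Continuous.intervalIntegrable (by fun_prop) _ _)
      (Continuous.intervalIntegrable (by fun_prop) _ _) fun t ht => ?_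
    have h5 := Real.one_sub_sq_div_two_le_cos (x := v * t)
    have h6 : (v * t) ^ 2 ≤ 1 := by
      rw [← sq_abs]
      apply pow_le_one₀ (abs_nonneg _)
      rw [abs_mul]
      have h7 : |t| ≤ h := by rw [abs_le]; constructor <;> linarith [ht.1, ht.2]
      exact (mul_le_mul_of_nonneg_left h7 (abs_nonneg _)).trans hv
    linarith
  rw [← h1] at h3
  exact h3.trans (Complex.re_le_norm _)

lemma win (h v γ : ℝ) : ∫ t in (γ - h)..γ, cexp (I * ((v * t : ℝ) : ℂ)) =
    cexp (I * ((v * γ : ℝ) : ℂ)) * kap h v := by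
  unfold kap
  rw [← intervalIntegral.integral_const_mul]
  have h1 := intervalIntegral.integral_comp_add_right (a := -h) (b := 0)
    (fun t : ℝ => cexp (I * ((v * t : ℝ) : ℂ))) γ
  have e1 : -h + γ = γ - h := by ring
  rw [e1, zero_add] at h1
  rw [← h1]
  refine intervalIntegral.integral_congr fun t _ => ?_
  show cexp (I * ((v * (t + γ) : ℝ) : ℂ)) = _
  rw [← Complex.exp_add]
  congr 1
  push_cast
  ring

lemma osc (A B v : ℝ) (hv : v ≠ 0) : ‖∫ t in A..B, cexp (I * ((v * t : ℝ) : ℂ))‖ ≤ 2 / |v| := by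
  have hc : I * (v : ℂ) ≠ 0 := mul_ne_zero I_ne_zero (by exact_mod_cast hv)
  have h1 : ∫ t in A..B, cexp (I * ((v * t : ℝ) : ℂ)) =
      (cexp (I * v * B) - cexp (I * v * A)) / (I * v) := by
    rw [← integral_exp_mul_complex hc]
    refine intervalIntegral.integral_congr fun t _ => ?_
    show cexp (I * ((v * t : ℝ) : ℂ)) = cexp (I * v * t)
    congr 1
    push_cast; ring
  rw [h1, norm_div, norm_mul, Complex.norm_I, one_mul, Complex.norm_real, Real.norm_eq_abs]
  apply div_le_div_of_nonneg_right _ (abs_nonneg _)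
  refine (norm_sub_le _ _).trans ?_
  have h2 : ∀ x : ℝ, ‖cexp (I * v * x)‖ = 1 := by
    intro x
    have : I * (v : ℂ) * x = I * ((v * x : ℝ) : ℂ) := by push_cast; ring
    rw [this, norm_ex]
  rw [h2, h2]
  norm_num

/-- indicator of a window -/
noncomputable def ind (h : ℝ) (s : ℂ) (t : ℝ) : ℝ :=
  (Set.Ico (s.im - h) s.im).indicator (fun _ => (1 : ℝ)) t

lemma ind_nonneg (h : ℝ) (s : ℂ) (t : ℝ) : 0 ≤ ind h s t :=
  Set.indicator_nonneg (fun _ _ => zero_le_one) t

lemma ind_int (h : ℝ) (s : ℂ) : Integrable (ind h s) := by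
  unfold ind
  rw [integrable_indicator_iff measurableSet_Ico]
  exact integrableOn_const (by rw [Real.volume_Ico]; exact ENNReal.ofReal_ne_top)

lemma ind_val (h : ℝ) (hh : 0 ≤ h) (s : ℂ) : ∫ t, ind h s t = h := by
  unfold ind
  rw [integral_indicator measurableSet_Ico, setIntegral_const, smul_eq_mul, mul_one, Measure.real,
    Real.volume_Ico]
  have : s.im - (s.im - h) = h := by ring
  rw [this, ENNReal.toReal_ofReal hh]

lemma ind_eint (h : ℝ) (s : ℂ) (v : ℝ) :
    Integrable (fun t : ℝ => cexp (I * ((v * t : ℝ) : ℂ)) * (ind h s t : ℂ)) := by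
  have h1 : Integrable (fun t : ℝ => (ind h s t : ℂ)) := (ind_int h s).ofReal
  refine h1.bdd_mul (c := 1) (ec v).aestronglyMeasurable (Filter.Eventually.of_forall fun t => ?_)
  exact (norm_ex (v * t)).le

lemma ind_e (h : ℝ) (hh : 0 ≤ h) (s : ℂ) (v : ℝ) :
    ∫ t : ℝ, cexp (I * ((v * t : ℝ) : ℂ)) * (ind h s t : ℂ) =
      cexp (I * ((v * s.im : ℝ) : ℂ)) * kap h v := by
  have e1 : (fun t : ℝ => cexp (I * ((v * t : ℝ) : ℂ)) * (ind h s t : ℂ)) =
      (Set.Ico (s.im - h) s.im).indicator (fun t : ℝ => cexp (I * ((v * t : ℝ) : ℂ))) := by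
    funext t
    unfold ind
    by_cases ht : t ∈ Set.Ico (s.im - h) s.im
    · rw [Set.indicator_of_mem ht, Set.indicator_of_mem ht]; simp
    · rw [Set.indicator_of_notMem ht, Set.indicator_of_notMem ht]; simp
  rw [e1, integral_indicator measurableSet_Ico, ← integral_Icc_eq_integral_Ico,
    integral_Icc_eq_integral_Ioc, ← intervalIntegral.integral_of_le (by linarith), win]

lemma NS_ind (S : Finset ℂ) (h t : ℝ) : NS S h t = ∑ s ∈ S, mu s * ind h s t := by
  unfold NS
  refine sum_congr rfl fun s _ => ?_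
  have h1 : (if t < s.im ∧ s.im ≤ t + h then (1 : ℝ) else 0) = ind h s t := by
    unfold ind
    by_cases hs : t < s.im ∧ s.im ≤ t + h
    · rw [if_pos hs, Set.indicator_of_mem]
      exact ⟨by linarith [hs.2], hs.1⟩
    · rw [if_neg hs, Set.indicator_of_notMem]
      intro h2
      exact hs ⟨h2.2, by linarith [h2.1]⟩
  rw [h1]
  rfl

lemma abs_quad (x d : ℝ) (hd : 0 < d) : |x| ≤ d / 2 + x ^ 2 / (2 * d) := by
  have h1 : 0 ≤ (|x| - d) ^ 2 / (2 * d) := by positivity
  have h2 : (|x| - d) ^ 2 / (2 * d) = |x| ^ 2 / (2 * d) - |x| + d / 2 := by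
    field_simp
    ring
  rw [h2, sq_abs] at h1
  linarith

lemma fin_ar (Sn h K v X L a ε C2 : ℝ) (hh : h = 2 * Real.pi * a / L) (ha : 1 ≤ a) (hL : 1 ≤ L)
    (hX : 0 < X) (hε : 0 < ε) (hC2 : 0 < C2) (hXC : 32 * C2 ≤ ε * X)
    (hK : h / 2 ≤ K) (hS : 0 ≤ Sn) (hv0 : 0 < v) (hv : 4 / ε / X ≤ v)
    (h1 : K * Sn ≤ a * (2 / v) + (X * (ε * a) + h * (C2 * (3 * L)))) : Sn ≤ ε * (X * L) := by
  have hpi := Real.pi_gt_three
  have hpi0 := Real.pi_pos
  have hL0 : 0 < L := by linarith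
  have hh0 : 0 < h := by rw [hh]; positivity
  have h2 : h / 2 * Sn ≤ a * (2 / v) + (X * (ε * a) + h * (C2 * (3 * L))) :=
    (mul_le_mul_of_nonneg_right hK hS).trans h1
  have h3 : 1 / v ≤ ε * X / 4 := by
    rw [div_le_iff₀ hv0]
    rw [div_div, div_le_iff₀ (by positivity)] at hv
    linarith
  have h4 : a * (2 / v) ≤ h / 2 * (ε / 4 * (X * L)) := by
    have e1 : a * (2 / v) = 2 * a * (1 / v) := by ring
    have e2 : h / 2 * (ε / 4 * (X * L)) = Real.pi * a * (ε * X / 4) := by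
      rw [hh]; field_simp
    rw [e1, e2]
    have h5 : 2 * a * (1 / v) ≤ 2 * a * (ε * X / 4) := mul_le_mul_of_nonneg_left h3 (by linarith)
    have h6 : 2 * a * (ε * X / 4) ≤ Real.pi * a * (ε * X / 4) := by
      refine mul_le_mul_of_nonneg_right ?_ (by positivity)
      nlinarith
    linarith
  have h5 : X * (ε * a) ≤ h / 2 * (ε / 3 * (X * L)) := by
    have e2 : h / 2 * (ε / 3 * (X * L)) = Real.pi / 3 * (X * (ε * a)) := by
      rw [hh]; field_simp
    rw [e2]
    have : 0 < X * (ε * a) := by positivity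
    nlinarith
  have h6 : h * (C2 * (3 * L)) ≤ h / 2 * (ε / 4 * (X * L)) := by
    have e1 : h * (C2 * (3 * L)) = h / 2 * (6 * C2 * L) := by ring
    rw [e1]
    refine mul_le_mul_of_nonneg_left ?_ (by positivity)
    have : 32 * C2 * L ≤ ε * X * L := mul_le_mul_of_nonneg_right hXC hL0.le
    nlinarith
  have h7 : h / 2 * Sn ≤ h / 2 * (ε * (X * L)) := by
    have : 0 ≤ h / 2 * (ε * (X * L)) := by positivity
    linarith
  exact le_of_mul_le_mul_left h7 (by positivity)

/-- the sum over the zeros with ordinates in `(X, 2X]` -/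
theorem blk_exp (ε : ℝ) (hε : 0 < ε) : ∃ c T0 : ℝ, 0 < c ∧ c ≤ 1 / 2 ∧ 100 ≤ T0 ∧
    ∀ X : ℝ, T0 ≤ X → ∀ v : ℝ, 4 / ε / X ≤ |v| → |v| ≤ c * Real.log X →
      ‖∑ s ∈ Zf riemannZeta X (2 * X), (mult riemannZeta s : ℂ) *
        cexp (I * ((v * s.im : ℝ) : ℂ))‖ ≤ ε * (X * Real.log X) := by
  classical
  obtain ⟨C, T1, hC, hT1, hnv⟩ := nv 1 le_rfl
  obtain ⟨C2, hC2, hnear⟩ := near
  obtain ⟨a, ha⟩ : ∃ a : ℝ, a = (C + 1) / ε ^ 2 + 1 := ⟨_, rfl⟩
  have ha1 : 1 ≤ a := by
    rw [ha]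
    have : 0 < (C + 1) / ε ^ 2 := by positivity
    linarith
  have ha0 : 0 < a := by linarith
  have haε : C + Real.log a ≤ (ε * a) ^ 2 := by
    have h1 : Real.log a ≤ a := (Real.log_le_sub_one_of_pos ha0).trans (by linarith)
    have h2 : (C + 1) / ε ^ 2 ≤ a := by rw [ha]; linarith
    rw [div_le_iff₀ (by positivity)] at h2
    have h3 : a * (C + 1) ≤ a * (a * ε ^ 2) := mul_le_mul_of_nonneg_left h2 ha0.le
    have h4 : C ≤ a * C := le_mul_of_one_le_left hC.le ha1
    calc C + Real.log a ≤ a * (C + 1) := by linarith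
      _ ≤ _ := h3
      _ = _ := by ring
  have hpi := Real.pi_pos
  have hpi3 := Real.pi_gt_three
  have hloga : 0 ≤ Real.log a := Real.log_nonneg ha1
  refine ⟨1 / (2 * Real.pi * a), max (max T1 100) (max (Real.exp (2 * Real.pi * a + a * Real.log a))
    (32 * C2 / ε)), by positivity, ?_, (le_max_right _ _).trans (le_max_left _ _), ?_⟩
  · apply one_div_le_one_div_of_le (by norm_num)
    nlinarith
  intro X hX v hv1 hv2
  have hXT1 : T1 ≤ X := (le_max_left _ _).trans ((le_max_left _ _).trans hX)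
  have hX100 : 100 ≤ X := (le_max_right _ _).trans ((le_max_left _ _).trans hX)
  have hXe : Real.exp (2 * Real.pi * a + a * Real.log a) ≤ X :=
    (le_max_left _ _).trans ((le_max_right _ _).trans hX)
  have hXC : 32 * C2 / ε ≤ X := (le_max_right _ _).trans ((le_max_right _ _).trans hX)
  have hX0 : 0 < X := by linarith
  have hLe : 2 * Real.pi * a + a * Real.log a ≤ Real.log X := (Real.le_log_iff_exp_le hX0).2 hXe
  have hala : 0 ≤ a * Real.log a := mul_nonneg ha0.le hloga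
  obtain ⟨hnvi, hnvb⟩ := hnv X hXT1 a ha1 (by rw [one_mul]; nlinarith)
  obtain ⟨L, hL⟩ : ∃ L : ℝ, L = Real.log X := ⟨_, rfl⟩
  rw [← hL] at hLe hnvi hnvb hv2 ⊢
  have hL2 : 2 * Real.pi * a ≤ L := by linarith
  have hL1 : 1 ≤ L := by nlinarith
  have hL0 : 0 < L := by linarith
  obtain ⟨h, hh⟩ : ∃ h : ℝ, h = 2 * Real.pi * a / L := ⟨_, rfl⟩
  rw [← hh] at hnvi hnvb
  have hh0 : 0 < h := by rw [hh]; positivity
  have hh1 : h ≤ 1 := by rw [hh, div_le_one hL0]; exact hL2
  have hvh : |v| * h ≤ 1 := by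
    calc |v| * h ≤ 1 / (2 * Real.pi * a) * L * h := mul_le_mul_of_nonneg_right hv2 hh0.le
      _ = 1 := by rw [hh]; field_simp
  have hv0 : 0 < |v| := lt_of_lt_of_le (by positivity) hv1
  have hvne : v ≠ 0 := abs_pos.1 hv0
  obtain ⟨S3, hS3⟩ : ∃ S3 : Finset ℂ, S3 = Zf riemannZeta X (3 * X) := ⟨_, rfl⟩
  obtain ⟨B, hB⟩ : ∃ B : Finset ℂ, B = Zf riemannZeta X (2 * X) := ⟨_, rfl⟩
  rw [← hB]
  have mS3 : ∀ s, s ∈ S3 ↔ 0 < s.re ∧ s.re < 1 ∧ X < s.im ∧ s.im ≤ 3 * X ∧ riemannZeta s = 0 := by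
    intro s
    rw [hS3, mem_Zf good_zeta (by linarith)]
    rfl
  have mB : ∀ s, s ∈ B ↔ 0 < s.re ∧ s.re < 1 ∧ X < s.im ∧ s.im ≤ 2 * X ∧ riemannZeta s = 0 := by
    intro s
    rw [hB, mem_Zf good_zeta (by linarith)]
    rfl
  have hBS : B ⊆ S3 := by
    intro s hs
    rw [mB] at hs
    rw [mS3]
    exact ⟨hs.1, hs.2.1, hs.2.2.1, by linarith [hs.2.2.2.1], hs.2.2.2.2⟩
  obtain ⟨E, hE⟩ : ∃ E : Finset ℂ, E = S3.filter
    (fun s => s.im ≤ X + 1 ∨ (2 * X < s.im ∧ s.im ≤ 2 * X + 1)) := ⟨_, rfl⟩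
  have hEs : ∑ s ∈ E, mu s ≤ C2 * (3 * L) := by
    have h1 : E ⊆ (ZZ (X + 1)).filter (fun s => X - 1 < s.im) ∪
        (ZZ (2 * X + 1)).filter (fun s => 2 * X - 1 < s.im) := by
      intro s hs
      rw [hE, mem_filter, mS3] at hs
      obtain ⟨⟨b1, b2, b3, b4, b5⟩, b6⟩ := hs
      rw [mem_union, mem_filter, mem_filter, mem_ZZ, mem_ZZ]
      rcases b6 with b6 | b6
      · left; exact ⟨⟨b1, b2, by linarith, b6, b5⟩, by linarith⟩
      · right; exact ⟨⟨b1, b2, by linarith, b6.2, b5⟩, by linarith [b6.1]⟩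
    have h2 := hnear X (by linarith)
    have h3 := hnear (2 * X) (by linarith)
    have h4 : Real.log (2 * X) ≤ 2 * L := by
      rw [hL, Real.log_mul (by norm_num) hX0.ne']
      have : Real.log 2 ≤ Real.log X := Real.log_le_log (by norm_num) (by linarith)
      linarith
    have h5 : ∑ s ∈ E, mu s ≤ ∑ s ∈ (ZZ (X + 1)).filter (fun s => X - 1 < s.im), mu s +
        ∑ s ∈ (ZZ (2 * X + 1)).filter (fun s => 2 * X - 1 < s.im), mu s := by
      refine (sum_le_sum_of_subset_of_nonneg h1 fun s _ _ => mu_nonneg s).trans ?_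
      have := sum_union_inter (s₁ := (ZZ (X + 1)).filter (fun s => X - 1 < s.im))
        (s₂ := (ZZ (2 * X + 1)).filter (fun s => 2 * X - 1 < s.im)) (f := mu)
      have h6 : 0 ≤ ∑ s ∈ (ZZ (X + 1)).filter (fun s => X - 1 < s.im) ∩
        (ZZ (2 * X + 1)).filter (fun s => 2 * X - 1 < s.im), mu s :=
        sum_nonneg fun s _ => mu_nonneg s
      linarith
    rw [← hL] at h2
    have h6 : C2 * Real.log (2 * X) ≤ C2 * (2 * L) := mul_le_mul_of_nonneg_left h4 hC2.le
    linarith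
  -- the functions
  obtain ⟨NB, hNB⟩ : ∃ NB : ℝ → ℝ, NB = fun t => ∑ s ∈ B, mu s * ind h s t := ⟨_, rfl⟩
  obtain ⟨J, hJ⟩ : ∃ J : ℝ → ℝ, J = (Set.Ioc X (2 * X)).indicator (fun _ => (1 : ℝ)) := ⟨_, rfl⟩
  have hJint : Integrable J := by
    rw [hJ, integrable_indicator_iff measurableSet_Ioc]
    exact integrableOn_const (by rw [Real.volume_Ioc]; exact ENNReal.ofReal_ne_top)
  have hNBint : Integrable NB := by
    rw [hNB]
    exact integrable_finsetSum _ fun s _ => (ind_int h s).const_mul _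
  have hNBnn : ∀ t, 0 ≤ NB t := fun t => by
    rw [hNB]; exact sum_nonneg fun s _ => mul_nonneg (mu_nonneg s) (ind_nonneg h s t)
  have hNSs : ∀ t, NS S3 h t = ∑ s ∈ S3, mu s * ind h s t := fun t => NS_ind S3 h t
  have hmn : ∀ (s : ℂ) (t : ℝ), 0 ≤ mu s * ind h s t := fun s t =>
    mul_nonneg (mu_nonneg s) (ind_nonneg h s t)
  have hind1 : ∀ (s : ℂ) (t : ℝ), ind h s t ≠ 0 → t < s.im ∧ s.im ≤ t + h := by
    intro s t h1
    unfold ind at h1
    have h2 : t ∈ Set.Ico (s.im - h) s.im := by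
      by_contra h3
      exact h1 (Set.indicator_of_notMem h3 _)
    exact ⟨h2.2, by linarith [h2.1]⟩
  have hpt : ∀ t, |NB t - a * J t| ≤ J t * |NS S3 h t - a| + ∑ s ∈ E, mu s * ind h s t := by
    intro t
    by_cases ht : t ∈ Set.Ioc X (2 * X)
    · have hJ1 : J t = 1 := by rw [hJ]; exact Set.indicator_of_mem ht _
      rw [hJ1, mul_one, one_mul]
      have h1 : NS S3 h t - NB t ≤ ∑ s ∈ E, mu s * ind h s t := by
        rw [hNSs, hNB]
        show ∑ s ∈ S3, mu s * ind h s t - ∑ s ∈ B, mu s * ind h s t ≤ _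
        rw [← sum_sdiff hBS, add_sub_cancel_right]
        have h2 : ∑ s ∈ S3 \ B, mu s * ind h s t =
            ∑ s ∈ (S3 \ B).filter (fun s => ind h s t ≠ 0), mu s * ind h s t := by
          symm
          apply sum_filter_of_ne
          intro s _ h3 h4
          rw [h4, mul_zero] at h3
          exact h3 rfl
        rw [h2]
        refine sum_le_sum_of_subset_of_nonneg ?_ fun s _ _ => hmn s t
        intro s hs
        rw [mem_filter, mem_sdiff] at hs
        obtain ⟨⟨hs1, hs2⟩, hs3⟩ := hs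
        obtain ⟨h4, h5⟩ := hind1 s t hs3
        rw [hE, mem_filter]
        refine ⟨hs1, Or.inr ⟨?_, by linarith [ht.2]⟩⟩
        by_contra h6
        push Not at h6
        rw [mS3] at hs1
        exact hs2 ((mB s).2 ⟨hs1.1, hs1.2.1, hs1.2.2.1, h6, hs1.2.2.2.2⟩)
      have h2 : 0 ≤ NS S3 h t - NB t := by
        rw [hNSs, hNB]
        have := sum_le_sum_of_subset_of_nonneg hBS (f := fun s => mu s * ind h s t)
          fun s _ _ => hmn s t
        show 0 ≤ ∑ s ∈ S3, mu s * ind h s t - ∑ s ∈ B, mu s * ind h s t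
        linarith
      have h3 : NB t - a = (NS S3 h t - a) - (NS S3 h t - NB t) := by ring
      rw [h3]
      refine (abs_sub _ _).trans ?_
      rw [abs_of_nonneg h2]
      linarith
    · have hJ0 : J t = 0 := by rw [hJ]; exact Set.indicator_of_notMem ht _
      rw [hJ0, mul_zero, sub_zero, zero_mul, zero_add, abs_of_nonneg (hNBnn t), hNB]
      show ∑ s ∈ B, mu s * ind h s t ≤ _
      have h2 : ∑ s ∈ B, mu s * ind h s t =
          ∑ s ∈ B.filter (fun s => ind h s t ≠ 0), mu s * ind h s t := by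
        symm
        apply sum_filter_of_ne
        intro s _ h3 h4
        rw [h4, mul_zero] at h3
        exact h3 rfl
      rw [h2]
      refine sum_le_sum_of_subset_of_nonneg ?_ fun s _ _ => hmn s t
      intro s hs
      rw [mem_filter] at hs
      obtain ⟨hs1, hs3⟩ := hs
      obtain ⟨h4, h5⟩ := hind1 s t hs3
      have hs2 := (mB s).1 hs1
      rw [hE, mem_filter]
      refine ⟨hBS hs1, Or.inl ?_⟩
      have h6 : t ≤ X := by
        by_contra h7
        push Not at h7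
        exact ht ⟨h7, by linarith [hs2.2.2.2.1]⟩
      linarith
  have hpt2 : ∀ t, |NB t - a * J t| ≤ (ε * a / 2) * J t +
      (Set.Ioc X (2 * X)).indicator (fun t => (NS S3 h t - a) ^ 2 / (2 * (ε * a))) t +
        ∑ s ∈ E, mu s * ind h s t := by
    intro t
    refine (hpt t).trans ?_
    by_cases ht : t ∈ Set.Ioc X (2 * X)
    · have hJ1 : J t = 1 := by rw [hJ]; exact Set.indicator_of_mem ht _
      rw [hJ1, Set.indicator_of_mem ht, one_mul, mul_one]
      have := abs_quad (NS S3 h t - a) (ε * a) (by positivity)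
      linarith
    · have hJ0 : J t = 0 := by rw [hJ]; exact Set.indicator_of_notMem ht _
      rw [hJ0, Set.indicator_of_notMem ht]
      linarith
  have hi2 : Integrable ((Set.Ioc X (2 * X)).indicator
      (fun t => (NS S3 h t - a) ^ 2 / (2 * (ε * a)))) := by
    rw [integrable_indicator_iff measurableSet_Ioc]
    have h1 := (sq_int S3 h a X (2 * X)).div_const (2 * (ε * a))
    rw [intervalIntegrable_iff_integrableOn_Ioc_of_le (by linarith)] at h1
    exact h1
  have hi3 : Integrable (fun t => ∑ s ∈ E, mu s * ind h s t) :=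
    integrable_finsetSum _ fun s _ => (ind_int h s).const_mul _
  have hDint : Integrable (fun t => NB t - a * J t) := hNBint.sub (hJint.const_mul a)
  have hJv : ∫ t, J t = X := by
    rw [hJ, integral_indicator measurableSet_Ioc, setIntegral_const, smul_eq_mul, mul_one,
      Measure.real, Real.volume_Ioc, ENNReal.toReal_ofReal (by linarith)]
    ring
  have hsqv : ∫ t, (Set.Ioc X (2 * X)).indicator
      (fun t => (NS S3 h t - a) ^ 2 / (2 * (ε * a))) t ≤ X * (ε * a) / 2 := by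
    rw [integral_indicator measurableSet_Ioc, ← intervalIntegral.integral_of_le (by linarith),
      intervalIntegral.integral_div]
    have e1 : ∫ t in X..(2 * X), (NS S3 h t - a) ^ 2 = ∫ t in X..(2 * X),
        ((cnt t h : ℝ) - a) ^ 2 := by
      refine intervalIntegral.integral_congr fun t ht => ?_
      rw [Set.uIcc_of_le (by linarith)] at ht
      show (NS S3 h t - a) ^ 2 = ((cnt t h : ℝ) - a) ^ 2
      rw [cnt_eq (A := X) (B := 3 * X) (by linarith) ht.1 (by linarith [ht.2]), hS3]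
    rw [e1]
    have h1 := (abs_le.1 hnvb).2
    have h2 : X / Real.pi ^ 2 * Real.log a ≤ X * Real.log a := by
      refine mul_le_mul_of_nonneg_right ?_ hloga
      exact div_le_self hX0.le (by nlinarith)
    have h3 : ∫ t in X..(2 * X), ((cnt t h : ℝ) - a) ^ 2 ≤ X * (ε * a) ^ 2 := by
      have h4 : X * (C + Real.log a) ≤ X * (ε * a) ^ 2 := mul_le_mul_of_nonneg_left haε hX0.le
      linarith
    rw [div_le_iff₀ (by positivity)]
    refine h3.trans (le_of_eq ?_)
    ring
  have hEv : ∫ t, ∑ s ∈ E, mu s * ind h s t ≤ h * (C2 * (3 * L)) := by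
    rw [integral_finsetSum _ fun s _ => (ind_int h s).const_mul _]
    have e1 : ∀ s ∈ E, ∫ t, mu s * ind h s t = mu s * h := by
      intro s _
      rw [integral_const_mul, ind_val h hh0.le]
    rw [sum_congr rfl e1, ← sum_mul, mul_comm]
    exact mul_le_mul_of_nonneg_left hEs hh0.le
  have hD1 : ∫ t, |NB t - a * J t| ≤ X * (ε * a) + h * (C2 * (3 * L)) := by
    have h1 := integral_mono hDint.abs (((hJint.const_mul (ε * a / 2)).add hi2).add hi3) hpt2
    have h2 : ∫ t, ((ε * a / 2) * J t +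
        (Set.Ioc X (2 * X)).indicator (fun t => (NS S3 h t - a) ^ 2 / (2 * (ε * a))) t +
        ∑ s ∈ E, mu s * ind h s t) = (∫ t, ((ε * a / 2) * J t +
        (Set.Ioc X (2 * X)).indicator (fun t => (NS S3 h t - a) ^ 2 / (2 * (ε * a))) t)) +
        ∫ t, ∑ s ∈ E, mu s * ind h s t :=
      integral_add ((hJint.const_mul (ε * a / 2)).add hi2) hi3
    have h3 : ∫ t, ((ε * a / 2) * J t +
        (Set.Ioc X (2 * X)).indicator (fun t => (NS S3 h t - a) ^ 2 / (2 * (ε * a))) t) =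
        (∫ t, (ε * a / 2) * J t) + ∫ t, (Set.Ioc X (2 * X)).indicator
          (fun t => (NS S3 h t - a) ^ 2 / (2 * (ε * a))) t :=
      integral_add (hJint.const_mul (ε * a / 2)) hi2
    have h4 : ∫ t, (ε * a / 2) * J t = ε * a / 2 * X := by rw [integral_const_mul, hJv]
    have h5 : ∫ t, |NB t - a * J t| ≤ ((ε * a / 2 * X) + ∫ t, (Set.Ioc X (2 * X)).indicator
      (fun t => (NS S3 h t - a) ^ 2 / (2 * (ε * a))) t) + ∫ t, ∑ s ∈ E, mu s * ind h s t := by
      rw [← h4, ← h3, ← h2]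
      exact h1
    linarith
  -- the complex integral
  have hcI : ∀ f : ℝ → ℝ, Integrable f →
      Integrable (fun t : ℝ => cexp (I * ((v * t : ℝ) : ℂ)) * (f t : ℂ)) := by
    intro f hf
    refine hf.ofReal.bdd_mul (c := 1) (ec v).aestronglyMeasurable
      (Filter.Eventually.of_forall fun t => ?_)
    exact (norm_ex (v * t)).le
  have hI1 : ∫ t : ℝ, cexp (I * ((v * t : ℝ) : ℂ)) * (NB t : ℂ) =
      kap h v * ∑ s ∈ B, (mult riemannZeta s : ℂ) * cexp (I * ((v * s.im : ℝ) : ℂ)) := by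
    have e1 : ∀ t : ℝ, cexp (I * ((v * t : ℝ) : ℂ)) * (NB t : ℂ) =
        ∑ s ∈ B, (mu s : ℂ) * (cexp (I * ((v * t : ℝ) : ℂ)) * (ind h s t : ℂ)) := by
      intro t
      rw [hNB]
      push_cast
      rw [mul_sum]
      refine sum_congr rfl fun s _ => ?_
      ring
    simp_rw [e1]
    rw [integral_finsetSum _ fun s _ => (ind_eint h s v).const_mul _, mul_sum]
    refine sum_congr rfl fun s _ => ?_
    rw [integral_const_mul, ind_e h hh0.le s v]
    have e2 : ((mu s : ℝ) : ℂ) = (mult riemannZeta s : ℂ) := by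
      unfold mu
      exact Complex.ofReal_natCast _
    rw [e2]
    ring
  have hI2 : ∫ t : ℝ, cexp (I * ((v * t : ℝ) : ℂ)) * ((a * J t : ℝ) : ℂ) =
      a * ∫ t in X..(2 * X), cexp (I * ((v * t : ℝ) : ℂ)) := by
    have e1 : (fun t : ℝ => cexp (I * ((v * t : ℝ) : ℂ)) * ((a * J t : ℝ) : ℂ)) =
        fun t : ℝ => (a : ℂ) * (Set.Ioc X (2 * X)).indicator
          (fun t : ℝ => cexp (I * ((v * t : ℝ) : ℂ))) t := by
      funext t
      rw [hJ]
      by_cases ht : t ∈ Set.Ioc X (2 * X)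
      · rw [Set.indicator_of_mem ht, Set.indicator_of_mem ht]; push_cast; ring
      · rw [Set.indicator_of_notMem ht, Set.indicator_of_notMem ht]; push_cast; ring
    rw [e1, integral_const_mul, integral_indicator measurableSet_Ioc,
      ← intervalIntegral.integral_of_le (by linarith)]
  have hI3 : ∫ t : ℝ, cexp (I * ((v * t : ℝ) : ℂ)) * (NB t : ℂ) =
      (∫ t : ℝ, cexp (I * ((v * t : ℝ) : ℂ)) * ((a * J t : ℝ) : ℂ)) +
      ∫ t : ℝ, cexp (I * ((v * t : ℝ) : ℂ)) * ((NB t - a * J t : ℝ) : ℂ) := by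
    rw [← integral_add (hcI _ (hJint.const_mul a)) (hcI _ hDint)]
    congr 1
    funext t
    push_cast
    ring
  have hI4 : ‖∫ t : ℝ, cexp (I * ((v * t : ℝ) : ℂ)) * ((NB t - a * J t : ℝ) : ℂ)‖ ≤
      X * (ε * a) + h * (C2 * (3 * L)) := by
    refine (norm_integral_le_integral_norm _).trans ?_
    have e1 : ∀ t : ℝ, ‖cexp (I * ((v * t : ℝ) : ℂ)) * ((NB t - a * J t : ℝ) : ℂ)‖ =
        |NB t - a * J t| := by
      intro t
      rw [norm_mul, norm_ex, one_mul, Complex.norm_real, Real.norm_eq_abs]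
    simp_rw [e1]
    exact hD1
  have hI5 : ‖∫ t : ℝ, cexp (I * ((v * t : ℝ) : ℂ)) * ((a * J t : ℝ) : ℂ)‖ ≤ a * (2 / |v|) := by
    rw [hI2, norm_mul, Complex.norm_real, Real.norm_of_nonneg ha0.le]
    exact mul_le_mul_of_nonneg_left (osc X (2 * X) v hvne) ha0.le
  have hfin : ‖kap h v‖ * ‖∑ s ∈ B, (mult riemannZeta s : ℂ) * cexp (I * ((v * s.im : ℝ) : ℂ))‖ ≤
      a * (2 / |v|) + (X * (ε * a) + h * (C2 * (3 * L))) := by
    rw [← norm_mul, ← hI1, hI3]
    exact (norm_add_le _ _).trans (add_le_add hI5 hI4)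
  exact fin_ar _ h _ |v| X L a ε C2 hh ha1 hL1 hX0 hε hC2
    (by rw [div_le_iff₀ hε] at hXC; linarith) (kap_low h v hh0 hvh) (norm_nonneg _) hv0 hv1 hfin

end Pool.Agent.TH801.LU
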