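import Pool.Agent.TH801.LU.Zs

/-! The set of ordinates of all zeros, with weights. -/

set_option autoImplicit false

open Finset MeasureTheory Complex
open scoped ComplexConjugate

namespace Pool.Agent.TH801.LU

open H370 (Zf zset mult NN mem_Zf NN_eq good_zeta)
open Pool.Agent.TH801.LR (recur ite_le_one ite_nonneg' cell norm_ex)

/-- the exponential sum with multiplicities -/
noncomputable def Fz (T v : ℝ) : ℂ := ∑ s ∈ ZZ T, (mu s : ℂ) * cexp (I * ((v * s.im : ℝ) : ℂ))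

lemma Fz_le (T v : ℝ) : ‖Fz T v‖ ≤ ∑ s ∈ ZZ T, mu s := by
  unfold Fz
  refine (norm_sum_le _ _).trans (sum_le_sum fun x _ => ?_)
  rw [norm_mul, norm_ex, mul_one, Complex.norm_real, Real.norm_of_nonneg (mu_nonneg x)]

lemma Fz_neg (T v : ℝ) : ‖Fz T (-v)‖ = ‖Fz T v‖ := by
  have h : Fz T (-v) = conj (Fz T v) := by
    unfold Fz
    rw [map_sum]
    refine sum_congr rfl fun x _ => ?_
    rw [map_mul, Complex.conj_ofReal, ← Complex.exp_conj, map_mul, Complex.conj_I,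
      Complex.conj_ofReal]
    congr 2
    push_cast; ring
  rw [h, RCLike.norm_conj]

lemma Fz_step (X v : ℝ) (hX : 1 ≤ X) :
    Fz (3 / 2 * X) v = Fz X v + ∑ s ∈ Zf riemannZeta X (3 / 2 * X), (mult riemannZeta s : ℂ) *
      cexp (I * ((v * s.im : ℝ) : ℂ)) := by
  unfold Fz
  rw [split (a := X) (b := 3 / 2 * X) hX (by linarith)]
  congr 1

/-- the ordinates in `(0, T]` of all zeros -/
noncomputable def Gam (T : ℝ) : Finset ℝ := (ZZ T).image (fun s => s.im)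

/-- the number of zeros with a given ordinate, with multiplicity -/
noncomputable def wU (T x : ℝ) : ℝ := ∑ s ∈ (ZZ T).filter (fun s => s.im = x), mu s

lemma mem_Gam {T x : ℝ} : x ∈ Gam T ↔ ∃ s ∈ ZZ T, s.im = x := by
  unfold Gam
  rw [mem_image]

lemma wU_nonneg (T x : ℝ) : 0 ≤ wU T x := sum_nonneg fun s _ => mu_nonneg s

lemma wU_one {T x : ℝ} (h : x ∈ Gam T) : 1 ≤ wU T x := by
  obtain ⟨s, hs, hsx⟩ := mem_Gam.1 h
  unfold wU
  have h1 : mu s ≤ ∑ s ∈ (ZZ T).filter (fun s => s.im = x), mu s :=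
    single_le_sum (f := mu) (fun i _ => mu_nonneg i) (mem_filter.2 ⟨hs, hsx⟩)
  exact (mu_one hs).trans h1

lemma sum_Gam (T : ℝ) (g : ℝ → ℂ) : ∑ x ∈ Gam T, (wU T x : ℂ) * g x =
    ∑ s ∈ ZZ T, (mu s : ℂ) * g s.im := by
  unfold Gam
  rw [← sum_fiberwise_of_maps_to (s := ZZ T) (t := (ZZ T).image (fun s => s.im))
    (g := fun s : ℂ => s.im) (fun s hs => mem_image_of_mem _ hs)]
  refine sum_congr rfl fun x _ => ?_
  unfold wU
  push_cast
  rw [sum_mul]
  refine sum_congr rfl fun s hs => ?_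
  rw [(mem_filter.1 hs).2]

lemma sum_Gam' (T : ℝ) (g : ℝ → ℝ) : ∑ x ∈ Gam T, wU T x * g x =
    ∑ s ∈ ZZ T, mu s * g s.im := by
  unfold Gam
  rw [← sum_fiberwise_of_maps_to (s := ZZ T) (t := (ZZ T).image (fun s => s.im))
    (g := fun s : ℂ => s.im) (fun s hs => mem_image_of_mem _ hs)]
  refine sum_congr rfl fun x _ => ?_
  unfold wU
  rw [sum_mul]
  refine sum_congr rfl fun s hs => ?_
  rw [(mem_filter.1 hs).2]

lemma Gam_exp (T v : ℝ) : ∑ x ∈ Gam T, (wU T x : ℂ) * cexp (I * ((v * x : ℝ) : ℂ)) = Fz T v :=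
  sum_Gam T (fun x => cexp (I * ((v * x : ℝ) : ℂ)))

lemma Gam_sum (T : ℝ) : ∑ x ∈ Gam T, wU T x = ∑ s ∈ ZZ T, mu s := by
  have := sum_Gam' T (fun _ => 1)
  simpa using this

lemma Gam_pairs (T : ℝ) : ∑ x ∈ Gam T, ∑ y ∈ Gam T,
    (if |x - y| ≤ 1 / Real.log T then (1 : ℝ) else 0) ≤ Qpair T := by
  have h1 : ∑ x ∈ Gam T, ∑ y ∈ Gam T, (if |x - y| ≤ 1 / Real.log T then (1 : ℝ) else 0) ≤
      ∑ x ∈ Gam T, wU T x * ∑ y ∈ Gam T, wU T y *
        (if |x - y| ≤ 1 / Real.log T then (1 : ℝ) else 0) := by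
    refine sum_le_sum fun x hx => ?_
    have h2 : ∑ y ∈ Gam T, (if |x - y| ≤ 1 / Real.log T then (1 : ℝ) else 0) ≤
        ∑ y ∈ Gam T, wU T y * (if |x - y| ≤ 1 / Real.log T then (1 : ℝ) else 0) :=
      sum_le_sum fun y hy => le_mul_of_one_le_left (ite_nonneg' _) (wU_one hy)
    refine h2.trans (le_mul_of_one_le_left ?_ (wU_one hx))
    exact sum_nonneg fun y _ => mul_nonneg (wU_nonneg T y) (ite_nonneg' _)
  refine h1.trans (le_of_eq ?_)
  rw [sum_Gam' T (fun x => ∑ y ∈ Gam T, wU T y *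
        (if |x - y| ≤ 1 / Real.log T then (1 : ℝ) else 0))]
  unfold Qpair
  refine sum_congr rfl fun x _ => ?_
  rw [sum_Gam' T (fun y => (if |x.im - y| ≤ 1 / Real.log T then (1 : ℝ) else 0)), mul_sum]
  refine sum_congr rfl fun y _ => ?_
  ring

end Pool.Agent.TH801.LU
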