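import Pool.Agent.TH801.LU.One
import Pool.Agent.TH801.LR.Par

/-! Savings at low frequencies and parameters. -/

set_option autoImplicit false

open Finset MeasureTheory Complex
open scoped ComplexConjugate

namespace Pool.Agent.TH801.LU

open Pool.Agent.TH801.LR (Sx Sx_le Sx_sq)

/-- products of savings -/
lemma prod_sav {n : ℕ} (R : Finset (Fin n)) (A : Fin n → Finset ℝ) (f : Fin n → ℝ) (g : Fin n → ℝ)
    (α : ℝ) (hα : 0 ≤ α) (w : Fin n → ℝ)
    (h : ∀ i ∈ R, ‖Sx (A i) (f i)‖ ≤ (A i).card * Real.exp (-(α * g i)))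
    (hg : ∀ i ∈ R, w i ≤ g i) :
    ∏ i ∈ R, ‖Sx (A i) (f i)‖ ≤ Real.exp (-(α * ∑ i ∈ R, w i)) * ∏ i ∈ R, ((A i).card : ℝ) := by
  have h1 : ∏ i ∈ R, ‖Sx (A i) (f i)‖ ≤ ∏ i ∈ R, (((A i).card : ℝ) * Real.exp (-(α * w i))) := by
    refine prod_le_prod (fun i _ => norm_nonneg _) fun i hi => (h i hi).trans ?_
    refine mul_le_mul_of_nonneg_left (Real.exp_le_exp.2 ?_) (Nat.cast_nonneg _)
    have := mul_le_mul_of_nonneg_left (hg i hi) hα
    linarith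
  refine h1.trans (le_of_eq ?_)
  rw [prod_mul_distrib, ← Real.exp_sum, mul_comm]
  congr 2
  rw [sum_neg_distrib, mul_sum]

/-- the first range -/
lemma rangeI {n : ℕ} (A : Fin n → Finset ℝ) (c : Fin n → ℝ) (i0 : Fin n) (b T L κ : ℝ)
    (hb : 0 < b) (hT : 0 < T) (hL : 0 < L) (h10 : 10 ≤ κ * (T * L))
    (hc : ∀ k, k ≠ i0 → |c k| ≤ b)
    (hone : ∀ k, ∀ v : ℝ, |v| ≤ κ * L → ‖Sx (A k) (2 * Real.pi * v)‖ ≤
      (A k).card * Real.exp (-(2 * κ ^ 2 * min 1 ((v * T) ^ 2)))) (u : ℝ) (hu : |u| ≤ 1 / (b * T)) :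
    ∏ i ∈ univ.erase i0, ‖Sx (A i) (2 * Real.pi * c i * u)‖ ≤
      Real.exp (-(2 * κ ^ 2 * T ^ 2 * ∑ i ∈ univ.erase i0, c i ^ 2) * u ^ 2) *
        ∏ i ∈ univ.erase i0, ((A i).card : ℝ) := by
  have hck : ∀ i, i ≠ i0 → |c i * u| ≤ 1 / T := by
    intro i hi
    rw [abs_mul]
    have h1 : |c i| * |u| ≤ b * (1 / (b * T)) := mul_le_mul (hc i hi) hu (abs_nonneg _) hb.le
    refine h1.trans (le_of_eq ?_)
    field_simp
  have h1 := prod_sav (univ.erase i0) A (fun i => 2 * Real.pi * c i * u)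
    (fun i => min 1 ((c i * u * T) ^ 2)) (2 * κ ^ 2) (by positivity)
    (fun i => (c i * u * T) ^ 2) (by
      intro i hi
      have hi0 : i ≠ i0 := (mem_erase.1 hi).1
      have h2 := hone i (c i * u) ((hck i hi0).trans (by
        rw [div_le_iff₀ hT]
        linarith))
      have e : 2 * Real.pi * c i * u = 2 * Real.pi * (c i * u) := by ring
      show ‖Sx (A i) (2 * Real.pi * c i * u)‖ ≤ _
      rw [e]
      exact h2) (by
      intro i hi
      have hi0 : i ≠ i0 := (mem_erase.1 hi).1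
      apply le_min _ le_rfl
      have h2 := hck i hi0
      rw [le_div_iff₀ hT] at h2
      have h3 : (c i * u * T) ^ 2 = (|c i * u| * T) ^ 2 := by
        rw [mul_pow (c i * u) T, mul_pow |c i * u| T, sq_abs]
      rw [h3]
      exact pow_le_one₀ (by positivity) h2)
  refine h1.trans (le_of_eq ?_)
  congr 2
  have h2 : ∑ i ∈ univ.erase i0, (c i * u * T) ^ 2 = u ^ 2 * T ^ 2 * ∑ i ∈ univ.erase i0, c i ^ 2 := by
    rw [mul_sum]
    exact sum_congr rfl fun i _ => by ring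
  rw [h2]
  ring

/-- the second range -/
lemma rangeII {n : ℕ} (A : Fin n → Finset ℝ) (c : Fin n → ℝ) (i0 i1 : Fin n) (b T L κ : ℝ)
    (hb : 0 < b) (hT : 0 < T)
    (hc : ∀ k, k ≠ i0 → |c k| ≤ b)
    (hone : ∀ k, ∀ v : ℝ, |v| ≤ κ * L → ‖Sx (A k) (2 * Real.pi * v)‖ ≤
      (A k).card * Real.exp (-(2 * κ ^ 2 * min 1 ((v * T) ^ 2)))) (u : ℝ)
    (hu1 : 1 / (b * T) < |u|) (hu2 : |u| ≤ κ * L / b) :
    ∏ i ∈ (univ.erase i0).erase i1, ‖Sx (A i) (2 * Real.pi * c i * u)‖ ≤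
      Real.exp (-(2 * κ ^ 2 * ∑ i ∈ (univ.erase i0).erase i1, (c i / b) ^ 2)) *
        ∏ i ∈ (univ.erase i0).erase i1, ((A i).card : ℝ) := by
  refine prod_sav ((univ.erase i0).erase i1) A (fun i => 2 * Real.pi * c i * u)
    (fun i => min 1 ((c i * u * T) ^ 2)) (2 * κ ^ 2) (by positivity)
    (fun i => (c i / b) ^ 2) ?_ ?_
  · intro i hi
    have hi0 : i ≠ i0 := (mem_erase.1 (mem_erase.1 hi).2).1
    have h2 := hone i (c i * u) (by
      rw [abs_mul]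
      calc |c i| * |u| ≤ b * (κ * L / b) := mul_le_mul (hc i hi0) hu2 (abs_nonneg _) hb.le
        _ = κ * L := by field_simp)
    have e : 2 * Real.pi * c i * u = 2 * Real.pi * (c i * u) := by ring
    show ‖Sx (A i) (2 * Real.pi * c i * u)‖ ≤ _
    rw [e]
    exact h2
  · intro i hi
    have hi0 : i ≠ i0 := (mem_erase.1 (mem_erase.1 hi).2).1
    have h3 : (c i / b) ^ 2 ≤ 1 := by
      rw [← sq_abs, abs_div, abs_of_pos hb]
      apply pow_le_one₀ (by positivity)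
      rw [div_le_one hb]
      exact hc i hi0
    apply le_min h3
    have h4 : 1 ≤ b * (|u| * T) := by
      rw [div_lt_iff₀ (by positivity)] at hu1
      linarith
    have h5 : |c i| / b ≤ |c i| * (|u| * T) := by
      rw [div_le_iff₀ hb]
      calc |c i| = |c i| * 1 := (mul_one _).symm
        _ ≤ |c i| * (b * (|u| * T)) := mul_le_mul_of_nonneg_left h4 (abs_nonneg _)
        _ = _ := by ring
    have e1 : (c i / b) ^ 2 = (|c i| / b) ^ 2 := by rw [div_pow, div_pow, sq_abs]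
    have e2 : (c i * u * T) ^ 2 = (|c i| * (|u| * T)) ^ 2 := by
      rw [mul_pow, mul_pow, mul_pow, mul_pow, sq_abs, sq_abs]; ring
    rw [e1, e2]
    exact pow_le_pow_left₀ (by positivity) h5 2

/-- the saving of the second range -/
lemma sav2 (κ W : ℝ) (hκ : 0 < κ) (hκ1 : κ ≤ 1 / 2) (hW : 1 ≤ W) :
    Real.exp (-(2 * κ ^ 2 * (W - 1))) ≤ 1 / (2 * κ) * (1 / Real.sqrt W) := by
  have hW0 : 0 < W := by linarith
  have hs : 0 < Real.sqrt W := Real.sqrt_pos.2 hW0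
  have h1 : Real.exp (2 * κ ^ 2 * (W - 1)) ^ 2 = Real.exp (4 * κ ^ 2 * (W - 1)) := by
    rw [← Real.exp_nat_mul]; congr 1; push_cast; ring
  have h2 : 4 * κ ^ 2 * W ≤ Real.exp (4 * κ ^ 2 * (W - 1)) := by
    have h3 := Real.add_one_le_exp (4 * κ ^ 2 * (W - 1))
    have h4 : 4 * κ ^ 2 ≤ 1 := by nlinarith
    nlinarith
  have h3 : (2 * κ * Real.sqrt W) ^ 2 ≤ Real.exp (2 * κ ^ 2 * (W - 1)) ^ 2 := by
    rw [h1, mul_pow, Real.sq_sqrt hW0.le]
    calc (2 * κ) ^ 2 * W = 4 * κ ^ 2 * W := by ring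
      _ ≤ _ := h2
  have h4 : 2 * κ * Real.sqrt W ≤ Real.exp (2 * κ ^ 2 * (W - 1)) :=
    le_of_sq_le_sq h3 (Real.exp_pos _).le
  rw [Real.exp_neg, ← one_div]
  have h5 : 1 / (2 * κ) * (1 / Real.sqrt W) = 1 / (2 * κ * Real.sqrt W) := by
    field_simp
  rw [h5]
  exact one_div_le_one_div_of_le (by positivity) h4

/-- parameters -/
lemma paramC (q K : ℕ) (hK : 1 ≤ K) :
    ∃ (m1 : ℕ), 2 ≤ m1 ∧ ∀ m : ℕ, m1 ≤ m → ∃ M : ℕ, 1 ≤ M ∧
      1 ≤ (M : ℝ) / (4 * K) ∧ (M : ℝ) / (4 * K) ≤ m ∧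
      1 / ((M : ℝ) / (4 * K)) ≤ 16 * K * (q + 1) * (1 / m) ∧
      ∀ w : ℕ, m ≤ w + 2 → (m : ℝ) / 4 ≤ ((w - q * (M + 1) : ℕ) : ℝ) := by
  have hK1 : (1 : ℝ) ≤ K := by exact_mod_cast hK
  refine ⟨16 * (q + 1) * (K + 1), ?_, ?_⟩
  · have : 1 ≤ (q + 1) * (K + 1) := Nat.mul_pos (Nat.succ_pos q) (Nat.succ_pos K)
    nlinarith
  intro m hm
  set D := (m - 2) / (2 * (q + 1)) with hD
  have hqK : 1 ≤ (q + 1) * (K + 1) := Nat.mul_pos (Nat.succ_pos q) (Nat.succ_pos K)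
  have hm16 : 16 ≤ m := by nlinarith
  have hD1 : D * (2 * (q + 1)) ≤ m - 2 := Nat.div_mul_le_self _ _
  have hD2 : m - 2 < (2 * (q + 1)) * (D + 1) := Nat.lt_mul_div_succ _ (by omega)
  have hq0 : (0 : ℝ) ≤ q := Nat.cast_nonneg q
  have hm0 : (0 : ℝ) < m := by exact_mod_cast (by omega : 0 < m)
  have hmr : ((m - 2 : ℕ) : ℝ) = (m : ℝ) - 2 := by
    rw [Nat.cast_sub (by omega)]; norm_num
  have hmr16 : 16 * ((q : ℝ) + 1) * (K + 1) ≤ m := by exact_mod_cast hm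
  have hD3 : (m : ℝ) - 2 < (2 * ((q : ℝ) + 1)) * (D + 1) := by
    rw [← hmr]
    exact_mod_cast hD2
  have hq1 : (0 : ℝ) < (q : ℝ) + 1 := by linarith
  have hDM : (m : ℝ) / (4 * ((q : ℝ) + 1)) ≤ (D : ℝ) - 1 := by
    rw [div_le_iff₀ (by positivity)]
    nlinarith
  have h4K : 4 * (K : ℝ) ≤ (D : ℝ) - 1 := by
    refine le_trans ?_ hDM
    rw [le_div_iff₀ (by positivity)]
    nlinarith
  have hD5 : 1 ≤ D := by
    by_contra h
    have : D = 0 := Nat.lt_one_iff.1 (not_le.1 h)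
    rw [this] at h4K
    norm_num at h4K
    linarith
  have hMr : ((D - 1 : ℕ) : ℝ) = (D : ℝ) - 1 := by
    rw [Nat.cast_sub hD5]; norm_num
  refine ⟨D - 1, ?_, ?_, ?_, ?_, ?_⟩
  · have : (1 : ℝ) ≤ ((D - 1 : ℕ) : ℝ) := by rw [hMr]; linarith
    exact_mod_cast this
  · rw [hMr, le_div_iff₀ (by positivity)]; linarith
  · rw [hMr, div_le_iff₀ (by positivity)]
    have h1 : D ≤ m := by
      calc D ≤ D * (2 * (q + 1)) := Nat.le_mul_of_pos_right _ (by omega)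
        _ ≤ m - 2 := hD1
        _ ≤ m := Nat.sub_le _ _
    have h2 : (D : ℝ) ≤ m := by exact_mod_cast h1
    nlinarith
  · rw [hMr, one_div_div, div_le_iff₀ (by linarith)]
    have h2 : 16 * K * (q + 1) * (1 / (m : ℝ)) * ((m : ℝ) / (4 * ((q : ℝ) + 1))) ≤
        16 * K * (q + 1) * (1 / m) * ((D : ℝ) - 1) := by gcongr
    refine le_trans (le_of_eq ?_) h2
    field_simp
    norm_num
  · intro w hw
    rw [Nat.sub_add_cancel hD5]
    have h3 : 2 * (q * D) ≤ m - 2 := by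
      have : D * (2 * (q + 1)) = 2 * (q * D) + 2 * D := by ring
      omega
    have h4 : m ≤ 4 * (w - q * D) := by omega
    have h5 : (m : ℝ) ≤ 4 * ((w - q * D : ℕ) : ℝ) := by exact_mod_cast h4
    linarith

/-- the saving of the third range -/
lemma sav3 (ε : ℝ) (hε : 0 < ε) (hε1 : ε < 1) (k : ℕ) (m : ℝ) (hm : 0 < m)
    (hk : m / 4 ≤ k) : (1 - ε) ^ k ≤ 8 / ε * (1 / m) * Real.exp (-(ε / 8 * m)) := by
  have h1 : (1 - ε) ^ k ≤ (Real.exp (-ε)) ^ k :=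
    pow_le_pow_left₀ (by linarith) (by have := Real.add_one_le_exp (-ε); linarith) _
  refine h1.trans ?_
  rw [← Real.exp_nat_mul]
  have h2 : (k : ℝ) * -ε ≤ -(ε / 8 * m) + -(ε / 8 * m) := by
    have := mul_le_mul_of_nonneg_right hk hε.le
    linarith
  refine (Real.exp_le_exp.2 h2).trans ?_
  rw [Real.exp_add]
  refine mul_le_mul_of_nonneg_right ?_ (Real.exp_pos _).le
  rw [Real.exp_neg, ← one_div]
  have h3 := Real.add_one_le_exp (ε / 8 * m)
  have h5 : 1 / Real.exp (ε / 8 * m) ≤ 1 / (ε / 8 * m) :=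
    one_div_le_one_div_of_le (by positivity) (by linarith)
  refine h5.trans (le_of_eq ?_)
  field_simp

/-- frequencies of a cluster -/
lemma freq2 (b L θ Y v v' u κ c0 : ℝ) (K K' M : ℕ) (hb : 0 < b) (hL : 1 ≤ L) (hK' : 1 ≤ K')
    (hM : 1 ≤ M) (hκ : 0 < κ) (hKK : (K : ℝ) ≤ 2 * c0 * K')
    (hYM : Y = (M : ℝ) / (4 * K')) (hgap : b * L ^ (θ - 1) ≤ |v - v'|)
    (hnear : |v - v'| ≤ 2 * b / M) (hu1 : κ * L / b < |u|)
    (hu2 : |u| ≤ L / (2 * Real.pi * b) * Y) (hlow : L ^ (θ / 2) ≤ 2 * Real.pi * (κ * L ^ θ))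
    (k : ℤ) (hk : k ≠ 0) (hkK : |k| ≤ K) :
    L ^ (θ / 2) ≤ |k * (2 * Real.pi * v * u - 2 * Real.pi * v' * u)| ∧
      |k * (2 * Real.pi * v * u - 2 * Real.pi * v' * u)| ≤ c0 * L := by
  have hpi := Real.pi_pos
  have hL0 : 0 < L := by linarith
  have hK0 : (0 : ℝ) < K' := by exact_mod_cast hK'
  have hM0 : (0 : ℝ) < M := by exact_mod_cast hM
  have e1 : |k * (2 * Real.pi * v * u - 2 * Real.pi * v' * u)| =
      |(k : ℝ)| * (2 * Real.pi * (|v - v'| * |u|)) := by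
    have : (k : ℝ) * (2 * Real.pi * v * u - 2 * Real.pi * v' * u) =
        k * (2 * Real.pi * ((v - v') * u)) := by ring
    rw [this, abs_mul, abs_mul, abs_mul (v - v'), abs_of_pos (by positivity : 0 < 2 * Real.pi)]
  rw [e1]
  have hk1 : (1 : ℝ) ≤ |(k : ℝ)| := by
    have : (1 : ℤ) ≤ |k| := Int.one_le_abs hk
    exact_mod_cast this
  have hk2 : |(k : ℝ)| ≤ K := by
    have : ((|k| : ℤ) : ℝ) ≤ ((K : ℤ) : ℝ) := by exact_mod_cast hkK
    rw [Int.cast_abs] at this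
    simpa using this
  constructor
  · have h1 : b * L ^ (θ - 1) * (κ * L / b) ≤ |v - v'| * |u| :=
      mul_le_mul hgap hu1.le (by positivity) (abs_nonneg _)
    have h2 : b * L ^ (θ - 1) * (κ * L / b) = κ * L ^ θ := by
      have h3 : L ^ θ = L ^ (θ - 1) * L := by
        rw [Real.rpow_sub_one hL0.ne']; field_simp
      rw [h3]
      field_simp
    rw [h2] at h1
    have h4 : 2 * Real.pi * (κ * L ^ θ) ≤ 2 * Real.pi * (|v - v'| * |u|) :=
      mul_le_mul_of_nonneg_left h1 (by positivity)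
    have h5 : 0 ≤ 2 * Real.pi * (|v - v'| * |u|) := by positivity
    calc L ^ (θ / 2) ≤ 2 * Real.pi * (|v - v'| * |u|) := hlow.trans h4
      _ ≤ |(k : ℝ)| * (2 * Real.pi * (|v - v'| * |u|)) := le_mul_of_one_le_left h5 hk1
  · have h1 : |v - v'| * |u| ≤ 2 * b / M * (L / (2 * Real.pi * b) * Y) :=
      mul_le_mul hnear hu2 (abs_nonneg _) (by positivity)
    have h2 : 2 * Real.pi * (2 * b / M * (L / (2 * Real.pi * b) * Y)) = L / (2 * K') := by
      rw [hYM]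
      field_simp
      norm_num
    have h3 : 2 * Real.pi * (|v - v'| * |u|) ≤ L / (2 * K') := by
      rw [← h2]; exact mul_le_mul_of_nonneg_left h1 (by positivity)
    calc |(k : ℝ)| * (2 * Real.pi * (|v - v'| * |u|)) ≤ K * (L / (2 * K')) :=
          mul_le_mul hk2 h3 (by positivity) (Nat.cast_nonneg _)
      _ ≤ 2 * c0 * K' * (L / (2 * K')) := mul_le_mul_of_nonneg_right hKK (by positivity)
      _ = c0 * L := by field_simp

end Pool.Agent.TH801.LU
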