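import Pool.Agent.TH801.LR.Main
import Pool.Agent.TH801.LU.Ex
import Pool.Agent.TH801.LU.Sav
import Pool.Agent.TH801.LU.Cnt2

/-! Sums of ordinates: the main theorem. -/

set_option autoImplicit false

open Finset MeasureTheory Complex
open scoped ComplexConjugate

namespace Pool.Agent.TH801.LU

open Pool.Agent.TH801.LR (Sx Sx_le Sx_sq cluster cell step2 card_rest cl cl_range cl_near)

/-- dividing by the length of the interval of frequencies -/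
lemma divE (X E0 Y a s Z M κ1 κ Q b L T V : ℝ) (hE0 : 0 < E0) (hY : 1 ≤ Y)
    (h : X * (E0 * Y) ≤ 4 / s * Z + 88 * M * (κ1 * E0 + κ * (E0 * Y)) * Q)
    (hs : s = Real.sqrt 2 * (a * T * V)) (hE : E0 = L / (2 * Real.pi * b)) (hb : 0 < b)
    (hL : 0 < L) (ha : 0 < a) (hT : 0 < T) (hV : 0 < V) (hZ : 0 ≤ Z) :
    X ≤ 8 * Real.pi / a * (b / V) * (1 / Y) * Z / (T * L) + 88 * M * (κ1 * (1 / Y) + κ) * Q := by
  have hpi := Real.pi_pos
  have hY0 : 0 < Y := by linarith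
  have hEY : 0 < E0 * Y := by positivity
  have h2 : 1 ≤ Real.sqrt 2 := by rw [Real.one_le_sqrt]; norm_num
  have h3 : 4 / s ≤ 4 / (a * T * V) := by
    rw [hs]
    apply div_le_div_of_nonneg_left (by norm_num) (by positivity)
    have : 0 < a * T * V := by positivity
    nlinarith
  have h4 : 4 / (a * T * V) * Z = (8 * Real.pi / a * (b / V) * (1 / Y) * Z / (T * L)) * (E0 * Y) := by
    rw [hE]
    field_simp
    ring
  have h5 : 88 * M * (κ1 * E0 + κ * (E0 * Y)) * Q =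
      (88 * M * (κ1 * (1 / Y) + κ) * Q) * (E0 * Y) := by
    field_simp
  have h6 : 4 / s * Z ≤ 4 / (a * T * V) * Z := mul_le_mul_of_nonneg_right h3 hZ
  have h7 : X * (E0 * Y) ≤ (8 * Real.pi / a * (b / V) * (1 / Y) * Z / (T * L) +
      88 * M * (κ1 * (1 / Y) + κ) * Q) * (E0 * Y) := by
    rw [add_mul, ← h4, ← h5]
    exact h.trans (add_le_add_left h6 _)
  exact le_of_mul_le_mul_right h7 hEY

/-- the last inequality for many coefficients -/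
lemma finA (X B0 B1 D Yi R1 κ1 κ Z t m R E2 K ε : ℝ) (hB0 : 0 ≤ B0) (hB1 : 0 ≤ B1)
    (h : X ≤ B0 * D * Yi * Z / t + B1 * (κ1 * Yi + κ) * Z / t)
    (hκ1 : κ1 ≤ R1 * D) (hR1 : 0 ≤ R1) (hYi : Yi ≤ R * (1 / m)) (hYi0 : 0 ≤ Yi) (hm : 0 < m)
    (hκ : κ ≤ 8 / ε * (1 / m) * E2) (hD : 0 ≤ D) (hZ : 0 ≤ Z) (ht : 0 < t) (hE2 : 0 ≤ E2)
    (hε : 0 < ε) (hR : 0 ≤ R)
    (hK1 : B0 * R + B1 * (R1 * R) ≤ K) (hK2 : B1 * (8 / ε) ≤ K) :
    X ≤ K / m * (D + E2) * Z / t := by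
  have hD1 : 0 ≤ R1 * D := mul_nonneg hR1 hD
  have h1 : κ1 * Yi ≤ R1 * D * (R * (1 / m)) := mul_le_mul hκ1 hYi hYi0 hD1
  have h2 : B0 * D * Yi ≤ B0 * D * (R * (1 / m)) := mul_le_mul_of_nonneg_left hYi (by positivity)
  have h3 : B1 * (κ1 * Yi + κ) ≤ B1 * (R1 * D * (R * (1 / m)) + 8 / ε * (1 / m) * E2) :=
    mul_le_mul_of_nonneg_left (by linarith) hB1
  have h4 : B0 * D * Yi + B1 * (κ1 * Yi + κ) ≤ K / m * (D + E2) := by
    have a1 : (B0 * R + B1 * (R1 * R)) * (D / m) ≤ K * (D / m) :=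
      mul_le_mul_of_nonneg_right hK1 (by positivity)
    have a2 : B1 * (8 / ε) * (E2 / m) ≤ K * (E2 / m) :=
      mul_le_mul_of_nonneg_right hK2 (by positivity)
    have e1 : B0 * D * (R * (1 / m)) + B1 * (R1 * D * (R * (1 / m)) + 8 / ε * (1 / m) * E2) =
        (B0 * R + B1 * (R1 * R)) * (D / m) + B1 * (8 / ε) * (E2 / m) := by ring
    have e2 : K / m * (D + E2) = K * (D / m) + K * (E2 / m) := by ring
    rw [e2]
    linarith
  refine h.trans ?_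
  rw [← add_div, ← add_mul]
  exact div_le_div_of_nonneg_right (mul_le_mul_of_nonneg_right h4 hZ) ht.le

/-- the last inequality for few coefficients -/
lemma finB (X B0 B1 D R1 κ1 Z t m m1 E2 K : ℝ) (hB0 : 0 ≤ B0) (hB1 : 0 ≤ B1)
    (h : X ≤ B0 * D * (1 / 1) * Z / t + B1 * (κ1 * (1 / 1) + 1) * Z / t)
    (hκ1 : κ1 ≤ R1 * D) (hm : 0 < m) (hm1 : m ≤ m1)
    (hD : 0 ≤ D) (hZ : 0 ≤ Z) (ht : 0 < t) (hE2 : 1 / 3 ≤ E2)
    (hK1 : (B0 + B1 * R1) * m1 ≤ K) (hK2 : 3 * B1 * m1 ≤ K) :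
    X ≤ K / m * (D + E2) * Z / t := by
  have h1 : B1 * (κ1 * (1 / 1) + 1) ≤ B1 * (R1 * D + 1) :=
    mul_le_mul_of_nonneg_left (by linarith) hB1
  have hm0 : 0 < m1 := hm.trans_le hm1
  have h4 : B0 * D * (1 / 1) + B1 * (κ1 * (1 / 1) + 1) ≤ K / m * (D + E2) := by
    have a0 : 0 ≤ K := le_trans (by positivity) hK2
    have a1 : (B0 + B1 * R1) * D ≤ K / m * D := by
      refine mul_le_mul_of_nonneg_right ?_ hD
      rw [le_div_iff₀ hm]
      rcases le_total 0 (B0 + B1 * R1) with h5 | h5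
      · exact (mul_le_mul_of_nonneg_left hm1 h5).trans hK1
      · exact (mul_nonpos_of_nonpos_of_nonneg h5 hm.le).trans a0
    have a2 : B1 ≤ K / m * E2 := by
      have a3 : 3 * B1 ≤ K / m := by
        rw [le_div_iff₀ hm]
        exact (mul_le_mul_of_nonneg_left hm1 (by linarith)).trans hK2
      have a4 : K / m * (1 / 3) ≤ K / m * E2 := mul_le_mul_of_nonneg_left hE2 (by positivity)
      linarith
    have e1 : B0 * D * (1 / 1) + B1 * (R1 * D + 1) = (B0 + B1 * R1) * D + B1 := by ring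
    have e2 : K / m * (D + E2) = K / m * D + K / m * E2 := by ring
    rw [e2]
    linarith
  refine h.trans ?_
  rw [← add_div, ← add_mul]
  exact div_le_div_of_nonneg_right (mul_le_mul_of_nonneg_right h4 hZ) ht.le

lemma num4 (N η P S t Q Z : ℝ) (hη : 0 < η) (ht : 0 < t) (htN : t ≤ N) (hP : 0 ≤ P)
    (hS : 0 ≤ S) (hQ0 : 0 ≤ Q) (h1 : (η * N) * ((η * N) * Q) ≤ Z) :
    88 * (P * N) * S * Q ≤ 88 * P / η ^ 2 * S * Z / t := by
  have hN : 0 < N := ht.trans_le htN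
  have h2 : N * Q ≤ Z / (η ^ 2 * t) := by
    rw [le_div_iff₀ (by positivity)]
    have h3 : N * Q * (η ^ 2 * t) ≤ N * Q * (η ^ 2 * N) := by gcongr
    refine h3.trans (le_trans (le_of_eq ?_) h1)
    ring
  have h3 : 0 ≤ 88 * P * S := by positivity
  calc 88 * (P * N) * S * Q = 88 * P * S * (N * Q) := by ring
    _ ≤ 88 * P * S * (Z / (η ^ 2 * t)) := mul_le_mul_of_nonneg_left h2 h3
    _ = _ := by field_simp

/-- the counting inequality at one choice of parameters -/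
lemma stepA {n : ℕ} (c : Fin n → ℝ) (A : Fin n → Finset ℝ) (Γ : Finset ℝ) (N P L T η κ Y κc y t w : ℝ)
    (hL : 0 < L) (hT : 0 < T) (ht : t = T * L) (htN : t ≤ N) (hP0 : 0 ≤ P) (hη : 0 < η)
    (hκ : 0 < κ) (hκ2 : κ ≤ 1 / 76) (h10 : 10 ≤ κ * (T * L))
    (hP : ∑ x ∈ Γ, ∑ y ∈ Γ, 1 / (1 + (L * (x - y)) ^ 2) ≤ P * N)
    (hA : ∀ i, A i ⊆ Γ) (hAη : ∀ i, η * N ≤ (A i).card)
    (i j : Fin n) (hij : i ≠ j) (hji : |c j| ≤ |c i|) (hmax : ∀ k, k ≠ i → |c k| ≤ |c j|)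
    (hb : 0 < |c j|) (hY : 1 ≤ Y) (hκc : 0 ≤ κc) (hw : w ≤ |c j| / (L * Y))
    (hone : ∀ k, ∀ v : ℝ, |v| ≤ κ * L → ‖Sx (A k) (2 * Real.pi * v)‖ ≤
      (A k).card * Real.exp (-(2 * κ ^ 2 * min 1 ((v * T) ^ 2))))
    (hcl : ∀ u : ℝ, κ * L / |c j| < |u| → |u| ≤ L / (2 * Real.pi * |c j|) * Y →
      ∏ i ∈ (univ.erase i).erase j, ‖Sx (A i) (2 * Real.pi * c i * u)‖ ≤
        κc * ∏ i ∈ (univ.erase i).erase j, ((A i).card : ℝ)) :
    ∃ κ1 : ℝ, 0 ≤ κ1 ∧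
      κ1 ≤ 1 / (2 * κ) * (|c j| / Real.sqrt (∑ k ∈ univ.erase i, c k ^ 2)) ∧
    (((Fintype.piFinset A).filter (fun x : Fin n → ℝ => |∑ i, c i * x i - y| ≤ w)).card : ℝ) ≤
      8 * Real.pi / κ * (|c j| / Real.sqrt (∑ k ∈ univ.erase i, c k ^ 2)) * (1 / Y) *
        (∏ k, ((A k).card : ℝ)) / t +
      88 * P / η ^ 2 * (κ1 * (1 / Y) + κc) * (∏ k, ((A k).card : ℝ)) / t := by
  classical
  have hpi := Real.pi_pos
  have hY0 : 0 < Y := by linarith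
  obtain ⟨b, hbd⟩ : ∃ b : ℝ, b = |c j| := ⟨_, rfl⟩
  rw [← hbd] at hji hmax hb hw hcl ⊢
  obtain ⟨V2, hV2⟩ : ∃ V2 : ℝ, V2 = ∑ k ∈ univ.erase i, c k ^ 2 := ⟨_, rfl⟩
  obtain ⟨W1, hW1⟩ : ∃ W1 : ℝ, W1 = ∑ k ∈ (univ.erase i).erase j, (c k / b) ^ 2 := ⟨_, rfl⟩
  have hjm : j ∈ univ.erase i := mem_erase.2 ⟨hij.symm, mem_univ j⟩
  have hVW : V2 = b ^ 2 * (1 + W1) := by
    rw [hV2, hW1, ← add_sum_erase _ _ hjm, mul_add, mul_sum]
    congr 1
    · rw [hbd, sq_abs, mul_one]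
    · refine sum_congr rfl fun k _ => ?_
      field_simp
  have hW0 : 0 ≤ W1 := by rw [hW1]; exact sum_nonneg fun _ _ => sq_nonneg _
  have hV20 : 0 < V2 := by rw [hVW]; positivity
  have hV : Real.sqrt V2 = b * Real.sqrt (1 + W1) := by
    rw [hVW, Real.sqrt_mul (sq_nonneg b), Real.sqrt_sq hb.le]
  have hV0 : 0 < Real.sqrt V2 := Real.sqrt_pos.2 hV20
  rw [← hV2]
  have hD : b / Real.sqrt V2 = 1 / Real.sqrt (1 + W1) := by
    rw [hV]
    field_simp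
  obtain ⟨κ1, hκ1⟩ : ∃ κ1 : ℝ, κ1 = Real.exp (-(2 * κ ^ 2 * W1)) := ⟨_, rfl⟩
  have hκ10 : 0 ≤ κ1 := by rw [hκ1]; exact (Real.exp_pos _).le
  refine ⟨κ1, hκ10, ?_, ?_⟩
  · rw [hD, hκ1]
    have := sav2 κ (1 + W1) hκ (by linarith) (by linarith)
    have e : 1 + W1 - 1 = W1 := by ring
    rwa [e] at this
  obtain ⟨E0, hE0⟩ : ∃ E0 : ℝ, E0 = L / (2 * Real.pi * b) := ⟨_, rfl⟩
  have hE00 : 0 < E0 := by rw [hE0]; positivity
  have hUE : κ * L / b ≤ E0 := by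
    rw [hE0, div_le_div_iff₀ hb (by positivity)]
    have h1 : κ * (2 * Real.pi) ≤ 1 := by
      have := Real.pi_lt_four
      have h2 : κ * (2 * Real.pi) ≤ 1 / 76 * (2 * 4) := mul_le_mul hκ2 (by linarith)
        (by positivity) (by norm_num)
      linarith
    calc κ * L * (2 * Real.pi * b) = κ * (2 * Real.pi) * (L * b) := by ring
      _ ≤ 1 * (L * b) := mul_le_mul_of_nonneg_right h1 (by positivity)
      _ = L * b := one_mul _
  have hE : E0 ≤ E0 * Y := le_mul_of_one_le_right hE00.le hY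
  have ha0 : 0 < 2 * κ ^ 2 * T ^ 2 * V2 := by positivity
  have h1 := count2 c A Γ N P L hL hP hA i j hij b hji (le_of_eq hbd) (1 / (b * T)) (κ * L / b)
    E0 (E0 * Y) (2 * κ ^ 2 * T ^ 2 * V2) κ1 κc y hE00 hUE hE
    (le_of_eq (by rw [hE0]; field_simp)) ha0 hκ10 hκc
    (by
      intro u hu
      rw [hV2]
      exact rangeI A c i b T L κ hb hT hL h10 hmax hone u hu)
    (by
      intro u hu1 hu2
      rw [hκ1, hW1]
      exact rangeII A c i j b T L κ hb hT hmax hone u hu1 hu2)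
    (by
      intro u hu1 hu2
      rw [hE0] at hu2
      exact hcl u hu1 hu2)
  obtain ⟨Z, hZ⟩ : ∃ Z : ℝ, Z = ∏ k, ((A k).card : ℝ) := ⟨_, rfl⟩
  obtain ⟨Q, hQ⟩ : ∃ Q : ℝ, Q = ∏ i ∈ (univ.erase i).erase j, ((A i).card : ℝ) := ⟨_, rfl⟩
  rw [← hZ, ← hQ] at h1
  rw [← hZ]
  have hZ0 : 0 ≤ Z := by rw [hZ]; exact prod_nonneg fun _ _ => Nat.cast_nonneg _
  have hQ0 : 0 ≤ Q := by rw [hQ]; exact prod_nonneg fun _ _ => Nat.cast_nonneg _
  have hs : Real.sqrt (2 * κ ^ 2 * T ^ 2 * V2) = Real.sqrt 2 * (κ * T * Real.sqrt V2) := by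
    have e : 2 * κ ^ 2 * T ^ 2 * V2 = 2 * ((κ * T) ^ 2 * V2) := by ring
    rw [e, Real.sqrt_mul (by norm_num), Real.sqrt_mul (sq_nonneg _), Real.sqrt_sq (by positivity)]
  have h2 := divE _ E0 Y κ _ Z (P * N) κ1 κc Q b L T (Real.sqrt V2) hE00 hY h1 hs hE0 hb hL hκ hT
    hV0 hZ0
  rw [ht]
  have ht0 : 0 < T * L := by positivity
  have hηN : 0 ≤ η * N := by
    have : 0 < N := by linarith
    positivity
  have h3 := num4 N η P (κ1 * (1 / Y) + κc) (T * L) Q Z hη ht0 (by rw [← ht]; exact htN) hP0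
    (by positivity) hQ0 (by
      rw [hZ, hQ, ← mul_prod_erase univ _ (mem_univ i), ← mul_prod_erase (univ.erase i) _ hjm]
      exact mul_le_mul (hAη i) (mul_le_mul_of_nonneg_right (hAη j)
        (prod_nonneg fun _ _ => Nat.cast_nonneg _))
        (mul_nonneg hηN (prod_nonneg fun _ _ => Nat.cast_nonneg _)) (Nat.cast_nonneg _))
  have h4 : (((Fintype.piFinset A).filter (fun x : Fin n → ℝ =>
      |∑ i, c i * x i - y| ≤ w)).card : ℝ) ≤ (((Fintype.piFinset A).filter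
        (fun x : Fin n → ℝ => |∑ i, c i * x i - y| ≤ 1 / (2 * Real.pi * (E0 * Y)))).card : ℝ) := by
    have : (Fintype.piFinset A).filter (fun x : Fin n → ℝ => |∑ i, c i * x i - y| ≤ w) ⊆
        (Fintype.piFinset A).filter (fun x : Fin n → ℝ =>
          |∑ i, c i * x i - y| ≤ 1 / (2 * Real.pi * (E0 * Y))) := by
      intro x hx
      rw [mem_filter] at hx ⊢
      refine ⟨hx.1, hx.2.trans (hw.trans (le_of_eq ?_))⟩
      rw [hE0]
      field_simp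
    exact_mod_cast card_le_card this
  refine h4.trans (h2.trans ?_)
  exact add_le_add_right h3 _

end Pool.Agent.TH801.LU
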