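import Pool.Agent.TH801.LR.Cnt

/-! One frequency: a set of ordinates of positive density is not concentrated on the points of one
arithmetic progression. -/

set_option autoImplicit false

open Finset MeasureTheory Complex
open scoped ComplexConjugate

namespace Pool.Agent.TH801.LU

open Pool.Agent.TH801.LR (Sx Sx_le Sx_sq)

lemma cos_far (w κ : ℝ) (hκ : 0 ≤ κ) (h : ∀ r : ℤ, κ ≤ |w - r|) :
    Real.cos (2 * Real.pi * w) ≤ 1 - 8 * κ ^ 2 := by
  have hpi := Real.pi_pos
  set z := w - round w with hz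
  have h1 : Real.cos (2 * Real.pi * w) = Real.cos (2 * Real.pi * z) := by
    have : 2 * Real.pi * z = 2 * Real.pi * w - (round w : ℤ) * (2 * Real.pi) := by
      rw [hz]; ring
    rw [this, Real.cos_sub_int_mul_two_pi]
  have h2 : |z| ≤ 1 / 2 := abs_sub_round w
  have h3 : κ ≤ |z| := h (round w)
  rw [h1]
  have h4 : |2 * Real.pi * z| ≤ Real.pi := by
    rw [abs_mul, abs_of_pos (by positivity : 0 < 2 * Real.pi)]
    nlinarith
  have h5 := Real.cos_le_one_sub_mul_cos_sq h4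
  have h6 : 2 / Real.pi ^ 2 * (2 * Real.pi * z) ^ 2 = 8 * |z| ^ 2 := by
    rw [sq_abs]
    field_simp
    ring
  rw [h6] at h5
  have h7 : κ ^ 2 ≤ |z| ^ 2 := pow_le_pow_left₀ hκ h3 2
  linarith

/-- number of cells near an arithmetic progression -/
lemma img_card (B : Finset ℝ) (L T v κ x : ℝ) (hL : 0 < L) (hT : 0 < T) (hv : 0 < v)
    (hκ : 0 ≤ κ) (hκ1 : κ ≤ 1) (hx : 0 < x ∧ x ≤ T)
    (hB : ∀ y ∈ B, 0 < y ∧ y ≤ T ∧ ∃ r : ℤ, |v * (y - x) - r| ≤ κ) :
    ((B.image (fun y => ⌊L * y⌋)).card : ℝ) ≤ (2 * (v * T) + 5) * (2 * (L * (κ / v)) + 2) := by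
  classical
  set R : ℤ := ⌈v * T⌉ + 1 with hR
  have hR0 : 0 ≤ v * T := by positivity
  have hRc : 0 ≤ ⌈v * T⌉ := Int.ceil_nonneg hR0
  have hR1 : (⌈v * T⌉ : ℝ) < v * T + 1 := Int.ceil_lt_add_one _
  have hR2 : v * T ≤ (⌈v * T⌉ : ℝ) := Int.le_ceil _
  set a : ℤ → ℝ := fun r => L * (x + (r - κ) / v) with ha
  set b : ℤ → ℝ := fun r => L * (x + (r + κ) / v) with hb
  have hsub : B.image (fun y => ⌊L * y⌋) ⊆ (Finset.Icc (-R) R).biUnion
      (fun r => Finset.Icc ⌊a r⌋ ⌊b r⌋) := by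
    intro j hj
    obtain ⟨y, hy, rfl⟩ := mem_image.1 hj
    obtain ⟨hy0, hyT, r, hr⟩ := hB y hy
    rw [abs_le] at hr
    rw [mem_biUnion]
    have hb1 : v * (y - x) ≤ v * T := mul_le_mul_of_nonneg_left (by linarith [hx.1]) hv.le
    have hb2 : -(v * T) ≤ v * (y - x) := by
      have : v * (-T) ≤ v * (y - x) := mul_le_mul_of_nonneg_left (by linarith [hx.2]) hv.le
      linarith
    refine ⟨r, ?_, ?_⟩
    · rw [Finset.mem_Icc]
      constructor
      · have : (-R : ℝ) ≤ r := by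
          rw [hR]; push_cast; linarith [hr.1, hr.2]
        exact_mod_cast this
      · have : (r : ℝ) ≤ R := by
          rw [hR]; push_cast; linarith [hr.1, hr.2]
        exact_mod_cast this
    · rw [Finset.mem_Icc]
      constructor
      · apply Int.floor_le_floor
        simp only [ha]
        apply mul_le_mul_of_nonneg_left _ hL.le
        have : (r - κ) / v ≤ y - x := by
          rw [div_le_iff₀ hv]; linarith [hr.1]
        linarith
      · apply Int.floor_le_floor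
        simp only [hb]
        apply mul_le_mul_of_nonneg_left _ hL.le
        have : y - x ≤ (r + κ) / v := by
          rw [le_div_iff₀ hv]; linarith [hr.2]
        linarith
  have hcard : ∀ r ∈ Finset.Icc (-R) R, ((Finset.Icc ⌊a r⌋ ⌊b r⌋).card : ℝ) ≤
      2 * (L * (κ / v)) + 2 := by
    intro r _
    rw [Int.card_Icc]
    have h1 : a r ≤ b r := by
      simp only [ha, hb]
      apply mul_le_mul_of_nonneg_left _ hL.le
      have : (r - κ) / v ≤ (r + κ) / v := div_le_div_of_nonneg_right (by linarith) hv.le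
      linarith
    have h2 : ⌊a r⌋ ≤ ⌊b r⌋ := Int.floor_le_floor h1
    have h3 : (((⌊b r⌋ + 1 - ⌊a r⌋).toNat : ℤ) : ℝ) = (⌊b r⌋ + 1 - ⌊a r⌋ : ℤ) := by
      rw [Int.toNat_of_nonneg (by omega)]
    have h4 : (((⌊b r⌋ + 1 - ⌊a r⌋).toNat : ℕ) : ℝ) = (⌊b r⌋ : ℝ) + 1 - ⌊a r⌋ := by
      have := h3
      push_cast at this ⊢
      exact this
    rw [h4]
    have h5 := Int.floor_le (b r)
    have h6 := Int.lt_floor_add_one (a r)
    have h7 : b r - a r = 2 * (L * (κ / v)) := by
      simp only [ha, hb]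
      field_simp
      ring
    linarith
  have h1 : ((B.image (fun y => ⌊L * y⌋)).card : ℝ) ≤
      ∑ r ∈ Finset.Icc (-R) R, ((Finset.Icc ⌊a r⌋ ⌊b r⌋).card : ℝ) := by
    have := (card_le_card hsub).trans card_biUnion_le
    exact_mod_cast this
  refine (h1.trans (sum_le_sum hcard)).trans ?_
  rw [sum_const, nsmul_eq_mul, Int.card_Icc]
  have h2 : (((R + 1 - -R).toNat : ℕ) : ℝ) ≤ 2 * (v * T) + 5 := by
    have h3 : (((R + 1 - -R).toNat : ℤ) : ℝ) = (R + 1 - -R : ℤ) := by
      rw [Int.toNat_of_nonneg (by omega)]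
    have h4 : (((R + 1 - -R).toNat : ℕ) : ℝ) = (R : ℝ) + 1 - -R := by
      have := h3
      push_cast at this ⊢
      exact this
    rw [h4, hR]
    push_cast
    linarith
  refine mul_le_mul_of_nonneg_right h2 ?_
  positivity

/-- the cardinality from the number of cells -/
lemma card_cells (B : Finset ℝ) (L : ℝ) (hL : 0 < L) : (B.card : ℝ) ^ 2 ≤
    ((B.image (fun y => ⌊L * y⌋)).card : ℝ) *
      ∑ x ∈ B, ∑ y ∈ B, (if |x - y| ≤ 1 / L then (1 : ℝ) else 0) := by
  classical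
  set j : ℝ → ℤ := fun y => ⌊L * y⌋ with hj
  set n : ℤ → ℝ := fun b => ((B.filter (fun x => j x = b)).card : ℝ) with hn
  have h1 : (B.card : ℝ) = ∑ a ∈ B.image j, n a := by
    have : B.card = ∑ a ∈ B.image j, (B.filter (fun x => j x = a)).card :=
      card_eq_sum_card_image j B
    rw [this]
    push_cast
    rfl
  have h4 : ∑ a ∈ B.image j, n a ^ 2 ≤
      ∑ x ∈ B, ∑ y ∈ B, if |x - y| ≤ 1 / L then (1 : ℝ) else 0 := by
    have e1 : ∑ a ∈ B.image j, n a ^ 2 = ∑ x ∈ B, ∑ y ∈ B, if j y = j x then (1 : ℝ) else 0 := by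
      have e2 : ∀ a : ℤ, ∑ y ∈ B, (if j y = a then (1 : ℝ) else 0) = n a := by
        intro a
        rw [← sum_filter, sum_const, nsmul_eq_mul, mul_one]
      simp_rw [e2]
      rw [sum_comp (fun a => n a) j]
      refine sum_congr rfl fun a _ => ?_
      rw [nsmul_eq_mul, sq]
    rw [e1]
    refine sum_le_sum fun x _ => sum_le_sum fun y _ => ?_
    by_cases hxy : j y = j x
    · rw [if_pos hxy, if_pos]
      have a1 := Int.floor_le (L * x)
      have a2 := Int.lt_floor_add_one (L * x)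
      have a3 := Int.floor_le (L * y)
      have a4 := Int.lt_floor_add_one (L * y)
      have a5 : (⌊L * y⌋ : ℝ) = ⌊L * x⌋ := by exact_mod_cast hxy
      rw [le_div_iff₀ hL]
      have a6 : |x - y| * L = |L * x - L * y| := by
        rw [← mul_sub, abs_mul, abs_of_pos hL]; ring
      rw [a6, abs_le]
      constructor <;> linarith
    · rw [if_neg hxy]
      split_ifs <;> norm_num
  rw [h1]
  refine (sq_sum_le_card_mul_sum_sq).trans ?_
  exact mul_le_mul_of_nonneg_left h4 (Nat.cast_nonneg _)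

lemma cells_num (L T v κ κ' : ℝ) (hL : 0 < L) (hT : 0 < T) (hv : 0 < v) (hvL : v ≤ κ * L)
    (hκ' : κ' ≤ κ) (hκv : κ' ≤ κ * (v * T)) (h6 : 10 ≤ κ * (T * L)) :
    (2 * (v * T) + 5) * (2 * (L * (κ' / v)) + 2) ≤ 19 * κ * (T * L) := by
  have h1 : κ' / v ≤ κ * T := by
    rw [div_le_iff₀ hv]; linarith
  have h2 : v * T * (L * (κ' / v)) = T * L * κ' := by field_simp
  have h3 : (2 * (v * T) + 5) * (2 * (L * (κ' / v)) + 2) =
      4 * (v * T * (L * (κ' / v))) + 4 * (v * T) + 10 * (L * (κ' / v)) + 10 := by ring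
  rw [h3, h2]
  have h4 : T * L * κ' ≤ T * L * κ := mul_le_mul_of_nonneg_left hκ' (by positivity)
  have h5 : v * T ≤ κ * L * T := mul_le_mul_of_nonneg_right hvL hT.le
  have h7 : L * (κ' / v) ≤ L * (κ * T) := mul_le_mul_of_nonneg_left h1 hL.le
  have e1 : T * L * κ = κ * (T * L) := by ring
  have e2 : κ * L * T = κ * (T * L) := by ring
  have e3 : L * (κ * T) = κ * (T * L) := by ring
  rw [e1] at h4
  rw [e2] at h5
  rw [e3] at h7
  linarith

theorem one (A : Finset ℝ) (L T P η κ : ℝ) (hL : 0 < L) (hT : 0 < T) (hP : 0 < P) (hη : 0 < η)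
    (hκ : κ = η ^ 2 / (76 * P)) (hκ1 : κ ≤ 1) (h10 : 10 ≤ κ * (T * L))
    (hA : ∀ y ∈ A, 0 < y ∧ y ≤ T)
    (hP2 : ∑ x ∈ A, ∑ y ∈ A, (if |x - y| ≤ 1 / L then (1 : ℝ) else 0) ≤ P * (T * L))
    (hAc : η * (T * L) ≤ A.card) (v : ℝ) (hv : |v| ≤ κ * L) :
    ‖Sx A (2 * Real.pi * v)‖ ≤ A.card * Real.exp (-(2 * κ ^ 2 * min 1 ((v * T) ^ 2))) := by
  classical
  have hκ0 : 0 < κ := by rw [hκ]; positivity
  rcases eq_or_ne v 0 with h0 | h0
  · have : min 1 ((v * T) ^ 2) = 0 := by
      rw [h0, zero_mul]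
      norm_num
    rw [this, mul_zero, neg_zero, Real.exp_zero, mul_one]
    exact Sx_le _ _
  have hv0 : 0 < |v| := abs_pos.2 h0
  set κ' := κ * min 1 (|v| * T) with hκ'
  have hm0 : 0 < min 1 (|v| * T) := lt_min one_pos (by positivity)
  have hκ'0 : 0 < κ' := by positivity
  have hκ'1 : κ' ≤ κ := by
    rw [hκ']
    exact mul_le_of_le_one_right hκ0.le (min_le_left _ _)
  have hκ'v : κ' ≤ κ * (|v| * T) := mul_le_mul_of_nonneg_left (min_le_right _ _) hκ0.le
  have ht0 : 0 < T * L := by positivity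
  set t := T * L with ht
  -- few points near the progression
  have hfew : ∀ x ∈ A, ((A.filter (fun y => ∃ r : ℤ, |v * (x - y) - r| < κ')).card : ℝ) ≤
      (A.card : ℝ) / 2 := by
    intro x hx
    set B := A.filter (fun y => ∃ r : ℤ, |v * (x - y) - r| < κ') with hB
    have hBA : B ⊆ A := filter_subset _ _
    have h1 := img_card B L T |v| κ' x hL hT hv0 hκ'0.le (hκ'1.trans hκ1) (hA x hx) (by
      intro y hy
      rw [hB, mem_filter] at hy
      obtain ⟨hyA, r, hr⟩ := hy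
      refine ⟨(hA y hyA).1, (hA y hyA).2, ?_⟩
      rcases abs_choice v with h | h
      · refine ⟨-r, ?_⟩
        rw [h]
        push_cast
        have : v * (y - x) - -(r : ℝ) = -(v * (x - y) - r) := by ring
        rw [this, abs_neg]
        exact hr.le
      · refine ⟨r, ?_⟩
        rw [h]
        have : -v * (y - x) - (r : ℝ) = v * (x - y) - r := by ring
        rw [this]
        exact hr.le)
    have h2 := h1.trans (cells_num L T |v| κ κ' hL hT hv0 hv hκ'1 hκ'v h10)
    have h3 := card_cells B L hL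
    have h4 : ∑ x ∈ B, ∑ y ∈ B, (if |x - y| ≤ 1 / L then (1 : ℝ) else 0) ≤ P * t := by
      refine le_trans ?_ hP2
      have hnn : ∀ x y : ℝ, 0 ≤ (if |x - y| ≤ 1 / L then (1 : ℝ) else 0) := fun x y => by
        split_ifs <;> norm_num
      refine (sum_le_sum fun x _ => sum_le_sum_of_subset_of_nonneg hBA
        fun y _ _ => hnn x y).trans ?_
      exact sum_le_sum_of_subset_of_nonneg hBA fun x _ _ => sum_nonneg fun y _ => hnn x y
    have h5 : (B.card : ℝ) ^ 2 ≤ (η / 2 * t) ^ 2 := by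
      refine h3.trans ((mul_le_mul h2 h4 ?_ (by positivity)).trans (le_of_eq ?_))
      · exact sum_nonneg fun x _ => sum_nonneg fun y _ => by split_ifs <;> norm_num
      · rw [hκ, ← ht]
        field_simp
        norm_num
    have h6 : (B.card : ℝ) ≤ η / 2 * t := le_of_sq_le_sq h5 (by positivity)
    linarith
  -- the square of the sum
  have hsq : ‖Sx A (2 * Real.pi * v)‖ ^ 2 ≤ (A.card : ℝ) ^ 2 * (1 - 4 * κ' ^ 2) := by
    rw [Sx_sq]
    have h1 : ∀ x ∈ A, ∑ y ∈ A, Real.cos (2 * Real.pi * v * (x - y)) ≤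
        (A.card : ℝ) * (1 - 4 * κ' ^ 2) := by
      intro x hx
      have h2 : ∀ y ∈ A, Real.cos (2 * Real.pi * v * (x - y)) ≤
          (1 - 8 * κ' ^ 2) + 8 * κ' ^ 2 *
            (if ∃ r : ℤ, |v * (x - y) - r| < κ' then (1 : ℝ) else 0) := by
        intro y _
        split_ifs with h
        · have := Real.cos_le_one (2 * Real.pi * v * (x - y))
          linarith
        · push Not at h
          have h3 := cos_far (v * (x - y)) κ' hκ'0.le h
          have e : 2 * Real.pi * v * (x - y) = 2 * Real.pi * (v * (x - y)) := by ring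
          rw [e]
          linarith
      refine (sum_le_sum h2).trans ?_
      rw [sum_add_distrib, sum_const, nsmul_eq_mul, ← mul_sum, ← sum_filter, sum_const,
        nsmul_eq_mul, mul_one]
      have h4 := hfew x hx
      have h5 : 0 ≤ 8 * κ' ^ 2 := by positivity
      have h6 := mul_le_mul_of_nonneg_left h4 h5
      linarith
    refine (sum_le_sum h1).trans (le_of_eq ?_)
    rw [sum_const, nsmul_eq_mul]
    ring
  have h1 : 1 - 4 * κ' ^ 2 ≤ Real.exp (-(2 * κ' ^ 2)) ^ 2 := by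
    rw [← Real.exp_nat_mul]
    have := Real.add_one_le_exp (((2 : ℕ) : ℝ) * -(2 * κ' ^ 2))
    push_cast at this ⊢
    linarith
  have h2 : κ' ^ 2 = κ ^ 2 * min 1 ((v * T) ^ 2) := by
    rw [hκ', mul_pow]
    congr 1
    have h3 : (v * T) ^ 2 = (|v| * T) ^ 2 := by rw [mul_pow, mul_pow, sq_abs]
    rw [h3]
    rcases le_total 1 (|v| * T) with h | h
    · rw [min_eq_left h, min_eq_left (one_le_pow₀ h), one_pow]
    · rw [min_eq_right h, min_eq_right (pow_le_one₀ (by positivity) h)]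
  have h3 : ‖Sx A (2 * Real.pi * v)‖ ^ 2 ≤ (A.card * Real.exp (-(2 * κ' ^ 2))) ^ 2 := by
    rw [mul_pow]
    exact hsq.trans (mul_le_mul_of_nonneg_left h1 (by positivity))
  have h4 := le_of_sq_le_sq h3 (by positivity)
  rw [h2] at h4
  have e : 2 * (κ ^ 2 * min 1 ((v * T) ^ 2)) = 2 * κ ^ 2 * min 1 ((v * T) ^ 2) := by ring
  rwa [e] at h4

end Pool.Agent.TH801.LU
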