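import Pool.Agent.TH801.LR.Main
import Pool.Agent.H370R2.Dyadic
import Pool.Agent.TH850.UV.Loc

/-! All zeros with ordinates in `(0, T]`, on the critical line or not: number and close pairs. -/

set_option autoImplicit false

open Finset MeasureTheory Complex
open scoped ComplexConjugate

namespace Pool.Agent.TH801.LU

open H370 (Zf zset mult NN mem_Zf NN_eq good_zeta)
open Pool.Agent.TH801.LR (recur ite_le_one ite_nonneg' cell)
open Pool.Agent.TH850.UR (ew)

/-- the zeros with ordinates in `(0, T]` -/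
noncomputable def ZZ (T : ℝ) : Finset ℂ := (H370.zeta_zeros_finite T).toFinset

lemma mem_ZZ {T : ℝ} {s : ℂ} : s ∈ ZZ T ↔
    0 < s.re ∧ s.re < 1 ∧ 0 < s.im ∧ s.im ≤ T ∧ riemannZeta s = 0 := by
  unfold ZZ
  rw [Set.Finite.mem_toFinset]
  rfl

lemma ZZ_mono {S T : ℝ} (h : S ≤ T) : ZZ S ⊆ ZZ T := by
  intro s hs
  rw [mem_ZZ] at hs ⊢
  exact ⟨hs.1, hs.2.1, hs.2.2.1, hs.2.2.2.1.trans h, hs.2.2.2.2⟩

/-- the multiplicity -/
noncomputable def mu (s : ℂ) : ℝ := (mult riemannZeta s : ℝ)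

lemma mu_nonneg (s : ℂ) : 0 ≤ mu s := Nat.cast_nonneg _

lemma mu_one {T : ℝ} {s : ℂ} (h : s ∈ ZZ T) : 1 ≤ mu s := by
  rw [mem_ZZ] at h
  have h1 : 1 ≤ mult riemannZeta s :=
    H370.Loc.mult_pos' good_zeta (s := s) h.2.2.1 h.2.2.2.2
  unfold mu
  exact_mod_cast h1

lemma filter_eq {a b : ℝ} (ha : 1 ≤ a) : (ZZ b).filter (fun s => a < s.im) = Zf riemannZeta a b := by
  ext s
  rw [mem_filter, mem_ZZ, mem_Zf good_zeta ha]
  constructor
  · rintro ⟨⟨h1, h2, h3, h4, h5⟩, h6⟩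
    exact ⟨h1, h2, h6, h4, h5⟩
  · rintro ⟨h1, h2, h3, h4, h5⟩
    exact ⟨⟨h1, h2, by linarith, h4, h5⟩, h3⟩

lemma split {M : Type*} [AddCommMonoid M] {a b : ℝ} (ha : 1 ≤ a) (hab : a ≤ b) (g : ℂ → M) :
    ∑ s ∈ ZZ b, g s = ∑ s ∈ ZZ a, g s + ∑ s ∈ Zf riemannZeta a b, g s := by
  rw [← sum_filter_add_sum_filter_not (ZZ b) (fun s => s.im ≤ a)]
  congr 1
  · refine sum_congr ?_ fun _ _ => rfl
    ext x
    rw [mem_filter, mem_ZZ, mem_ZZ]
    constructor
    · rintro ⟨⟨h1, h2, h3, h4, h5⟩, h6⟩; exact ⟨h1, h2, h3, h6, h5⟩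
    · rintro ⟨h1, h2, h3, h4, h5⟩; exact ⟨⟨h1, h2, h3, h4.trans hab, h5⟩, h4⟩
  · rw [← filter_eq ha]
    refine sum_congr ?_ fun _ _ => rfl
    ext x
    rw [mem_filter, mem_filter, not_le]

/-- the number of zeros -/
theorem u1 : ∃ C : ℝ, 1 ≤ C ∧ ∀ T : ℝ, 4 ≤ T →
    ∑ s ∈ ZZ T, mu s ≤ C * (T * Real.log T) := by
  obtain ⟨C, hC, hNN⟩ := H370.NN_crude good_zeta
  set A := ∑ x ∈ ZZ 6, mu x with hA
  have hA0 : 0 ≤ A := sum_nonneg fun x _ => mu_nonneg x
  refine ⟨A + 2 * C + 1, by linarith, ?_⟩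
  have h1 := recur (fun T => ∑ x ∈ ZZ T, mu x) 4 A C (by norm_num) hA0 hC.le ?_ ?_
  · intro T hT
    refine (h1 T hT).trans ?_
    have : 0 ≤ T * Real.log T := by
      have := Real.log_nonneg (show (1 : ℝ) ≤ T by linarith)
      have : 0 ≤ T := by linarith
      positivity
    nlinarith
  · intro T _ hT2
    exact sum_le_sum_of_subset_of_nonneg (ZZ_mono (by linarith)) fun x _ _ => mu_nonneg x
  · intro X hX
    show ∑ x ∈ ZZ (3 / 2 * X), mu x ≤ ∑ x ∈ ZZ X, mu x + C * (X * Real.log X)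
    rw [split (a := X) (b := 3 / 2 * X) (by linarith) (by linarith)]
    have h3 := hNN X hX X (3 / 2 * X) le_rfl (by linarith)
    rw [NN_eq good_zeta (by linarith), Nat.cast_sum] at h3
    have h2 : ∑ s ∈ Zf riemannZeta X (3 / 2 * X), mu s =
        ∑ s ∈ Zf riemannZeta X (3 / 2 * X), (mult riemannZeta s : ℝ) := rfl
    rw [h2]
    linarith

/-- the mass near a point -/
lemma near : ∃ C : ℝ, 0 < C ∧ ∀ X : ℝ, 3 ≤ X →
    ∑ s ∈ (ZZ (X + 1)).filter (fun s => X - 1 < s.im), mu s ≤ C * Real.log X := by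
  obtain ⟨C, hC, h⟩ := H370.zcount good_zeta
  refine ⟨C, hC, fun X hX => ?_⟩
  have h1 := h X hX
  rw [NN_eq good_zeta (by linarith), Nat.cast_sum] at h1
  rw [filter_eq (by linarith)]
  exact h1

lemma vol_inter (a b d : ℝ) (hd : 0 < d) (h : |a - b| ≤ d) :
    d ≤ (volume (Set.Icc (a - d) (a + d) ∩ Set.Icc (b - d) (b + d))).toReal := by
  rw [Set.Icc_inter_Icc, Real.volume_Icc, ENNReal.toReal_ofReal']
  rw [abs_le] at h
  refine le_trans ?_ (le_max_left _ _)
  have h1 : max (a - d) (b - d) ≤ max a b - d := by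
    rw [max_sub_sub_right]
  have h2 : max a b ≤ min (a + d) (b + d) := by
    apply le_min
    · exact max_le (by linarith) (by linarith)
    · exact max_le (by linarith) (by linarith)
  have h3 : d ≤ min (a + d) (b + d) - max (a - d) (b - d) := by linarith
  exact h3

/-- close pairs in a block -/
theorem blk : ∃ C T0 : ℝ, 0 < C ∧ 100 ≤ T0 ∧ ∀ X : ℝ, T0 ≤ X →
    ∑ s ∈ Zf riemannZeta X (3 / 2 * X), ∑ s' ∈ Zf riemannZeta X (3 / 2 * X),
      mu s * mu s' * (if |s.im - s'.im| ≤ 1 / Real.log X then (1 : ℝ) else 0) ≤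
        C * (X * Real.log X) := by
  classical
  obtain ⟨κ, C, T1, hκ, hκ1, hC, hT1, hloc⟩ := Pool.Agent.TH850.UV.loc2
  refine ⟨C, max T1 100, hC, le_max_right _ _, fun X hX => ?_⟩
  have hXT1 : T1 ≤ X := (le_max_left _ _).trans hX
  have hX100 : 100 ≤ X := (le_max_right _ _).trans hX
  have hX0 : 0 < X := by linarith
  have hL0 : 0 < Real.log X := Real.log_pos (by linarith)
  have h0 := hloc X hXT1
  set L := Real.log X with hL
  set d := 1 / L with hd
  have hd0 : 0 < d := by positivity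
  set S := Zf riemannZeta X (2 * X) with hS
  set B := Zf riemannZeta X (3 / 2 * X) with hB
  have hBS : B ⊆ S := by
    intro s hs
    rw [hB, mem_Zf good_zeta (by linarith)] at hs
    rw [hS, mem_Zf good_zeta (by linarith)]
    obtain ⟨h1, h2, h3, h4, h5⟩ := hs
    exact ⟨h1, h2, h3, by linarith, h5⟩
  set I : ℂ → Set ℝ := fun s => Set.Icc (s.im - d) (s.im + d) with hI
  set f : ℝ → ℝ := fun t => ∑ s ∈ B, ∑ s' ∈ B, (mu s * mu s') *
    (I s ∩ I s').indicator (fun _ => (1 : ℝ)) t with hf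
  have hii : ∀ s s' : ℂ, Integrable ((I s ∩ I s').indicator (fun _ => (1 : ℝ))) := by
    intro s s'
    rw [integrable_indicator_iff (measurableSet_Icc.inter measurableSet_Icc)]
    refine integrableOn_const (ne_top_of_le_ne_top ?_ (measure_mono Set.inter_subset_left))
    show volume (Set.Icc (s.im - d) (s.im + d)) ≠ ⊤
    rw [Real.volume_Icc]; exact ENNReal.ofReal_ne_top
  have hfi : Integrable f := integrable_finsetSum _ fun s _ => integrable_finsetSum _ fun s' _ =>
    (hii s s').const_mul _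
  have hf0 : ∀ t, 0 ≤ f t := fun t => sum_nonneg fun s _ => sum_nonneg fun s' _ =>
    mul_nonneg (mul_nonneg (mu_nonneg s) (mu_nonneg s'))
      (Set.indicator_nonneg (fun _ _ => zero_le_one) t)
  have hpt : ∀ t, f t ≤ (∑ s ∈ S.filter (fun s => |s.im - t| ≤ 1 / Real.log X),
      (mult riemannZeta s : ℝ) * ew κ (Real.log X) s) ^ 2 := by
    intro t
    have e1 : f t = (∑ s ∈ B, mu s * (I s).indicator (fun _ => (1 : ℝ)) t) ^ 2 := by
      simp only [hf]
      rw [sq, sum_mul_sum]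
      refine sum_congr rfl fun s _ => sum_congr rfl fun s' _ => ?_
      have : (I s ∩ I s').indicator (fun _ => (1 : ℝ)) t =
          (I s).indicator (fun _ => (1 : ℝ)) t * (I s').indicator (fun _ => (1 : ℝ)) t := by
        by_cases h1 : t ∈ I s <;> by_cases h2 : t ∈ I s' <;> simp [h1, h2]
      rw [this]; ring
    rw [e1]
    have h1 : 0 ≤ ∑ s ∈ B, mu s * (I s).indicator (fun _ => (1 : ℝ)) t :=
      sum_nonneg fun s _ => mul_nonneg (mu_nonneg s) (Set.indicator_nonneg (fun _ _ => zero_le_one) t)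
    refine pow_le_pow_left₀ h1 ?_ 2
    rw [sum_filter]
    refine le_trans (sum_le_sum_of_subset_of_nonneg hBS fun s _ _ =>
      mul_nonneg (mu_nonneg s) (Set.indicator_nonneg (fun _ _ => zero_le_one) t)) ?_
    refine sum_le_sum fun s _ => ?_
    by_cases ht : t ∈ I s
    · have h2 : |s.im - t| ≤ 1 / Real.log X := by
        simp only [hI, Set.mem_Icc] at ht
        rw [abs_le]
        constructor <;> linarith [ht.1, ht.2]
      rw [Set.indicator_of_mem ht, mul_one, if_pos h2]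
      have h3 : 1 ≤ ew κ (Real.log X) s := by
        unfold ew
        rw [Real.one_le_exp_iff]
        positivity
      have h4 := mu_nonneg s
      calc mu s ≤ mu s * ew κ (Real.log X) s := le_mul_of_one_le_right h4 h3
        _ = _ := rfl
    · rw [Set.indicator_of_notMem ht, mul_zero]
      split_ifs
      · exact mul_nonneg (Nat.cast_nonneg _) (Real.exp_pos _).le
      · exact le_rfl
  have hint : ∫ t, f t ≤ C * X := by
    have h1 : ENNReal.ofReal (∫ t, f t) ≤ ENNReal.ofReal (C * X) := by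
      rw [ofReal_integral_eq_lintegral_ofReal hfi (Filter.Eventually.of_forall hf0)]
      exact (lintegral_mono fun t => ENNReal.ofReal_le_ofReal (hpt t)).trans h0
    exact (ENNReal.ofReal_le_ofReal_iff (by positivity)).1 h1
  have hval : ∫ t, f t = ∑ s ∈ B, ∑ s' ∈ B, (mu s * mu s') * (volume (I s ∩ I s')).toReal := by
    simp only [hf]
    rw [integral_finsetSum _ fun s _ => integrable_finsetSum _ fun s' _ => (hii s s').const_mul _]
    refine sum_congr rfl fun s _ => ?_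
    rw [integral_finsetSum _ fun s' _ => (hii s s').const_mul _]
    refine sum_congr rfl fun s' _ => ?_
    rw [integral_const_mul, integral_indicator (measurableSet_Icc.inter measurableSet_Icc),
      setIntegral_const, smul_eq_mul, mul_one]
    rfl
  have hlow : d * ∑ s ∈ B, ∑ s' ∈ B, mu s * mu s' *
      (if |s.im - s'.im| ≤ 1 / Real.log X then (1 : ℝ) else 0) ≤ ∫ t, f t := by
    rw [hval, mul_sum]
    refine sum_le_sum fun s _ => ?_
    rw [mul_sum]
    refine sum_le_sum fun s' _ => ?_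
    have hm : 0 ≤ mu s * mu s' := mul_nonneg (mu_nonneg s) (mu_nonneg s')
    split_ifs with h
    · have h1 : d ≤ (volume (I s ∩ I s')).toReal := vol_inter _ _ _ hd0 h
      calc d * (mu s * mu s' * 1) = mu s * mu s' * d := by ring
        _ ≤ _ := mul_le_mul_of_nonneg_left h1 hm
    · rw [mul_zero, mul_zero]
      exact mul_nonneg hm ENNReal.toReal_nonneg
  have hfin := hlow.trans hint
  set PS := ∑ s ∈ B, ∑ s' ∈ B, mu s * mu s' *
      (if |s.im - s'.im| ≤ d then (1 : ℝ) else 0) with hPS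
  have e1 : PS = L * (d * PS) := by
    rw [hd]; field_simp
  rw [e1]
  calc L * (d * PS) ≤ L * (C * X) := mul_le_mul_of_nonneg_left hfin hL0.le
    _ = _ := by ring

/-- weighted number of close pairs -/
noncomputable def Qpair (T : ℝ) : ℝ := ∑ x ∈ ZZ T, ∑ y ∈ ZZ T,
  mu x * mu y * (if |x.im - y.im| ≤ 1 / Real.log T then (1 : ℝ) else 0)

theorem q_step : ∃ C T0 : ℝ, 0 < C ∧ 100 ≤ T0 ∧ ∀ X : ℝ, T0 ≤ X →
    Qpair (3 / 2 * X) ≤ Qpair X + C * (X * Real.log X) := by
  classical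
  obtain ⟨C1, T1, hC1, hT1, hblk⟩ := blk
  obtain ⟨C2, hC2, hnear⟩ := near
  refine ⟨C1 + 2 * C2 ^ 2, T1, by positivity, hT1, fun X hX => ?_⟩
  have hX100 : 100 ≤ X := hT1.trans hX
  have hX1 : 1 ≤ X := by linarith
  have hL : 1 ≤ Real.log X := by
    rw [Real.le_log_iff_exp_le (by linarith)]
    have := Real.exp_one_lt_d9
    linarith
  have hLX : Real.log X ≤ X := (Real.log_le_sub_one_of_pos (by linarith)).trans (by linarith)
  set H := Zf riemannZeta X (3 / 2 * X) with hH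
  set k : ℂ → ℂ → ℝ := fun x y => mu x * mu y *
    (if |x.im - y.im| ≤ 1 / Real.log X then (1 : ℝ) else 0) with hk
  have h1 : Qpair (3 / 2 * X) ≤ ∑ x ∈ ZZ (3 / 2 * X), ∑ y ∈ ZZ (3 / 2 * X), k x y := by
    unfold Qpair
    refine sum_le_sum fun x _ => sum_le_sum fun y _ => ?_
    refine mul_le_mul_of_nonneg_left ?_ (mul_nonneg (mu_nonneg x) (mu_nonneg y))
    by_cases h : |x.im - y.im| ≤ 1 / Real.log (3 / 2 * X)
    · rw [if_pos h, if_pos]
      refine h.trans ?_
      apply one_div_le_one_div_of_le (by linarith)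
      exact Real.log_le_log (by linarith) (by linarith)
    · rw [if_neg h]; exact ite_nonneg' _
  have h2 : ∑ x ∈ ZZ (3 / 2 * X), ∑ y ∈ ZZ (3 / 2 * X), k x y =
      (∑ x ∈ ZZ X, ∑ y ∈ ZZ X, k x y + ∑ x ∈ ZZ X, ∑ y ∈ H, k x y) +
      (∑ x ∈ H, ∑ y ∈ ZZ X, k x y + ∑ x ∈ H, ∑ y ∈ H, k x y) := by
    rw [split (a := X) (b := 3 / 2 * X) (by linarith) (by linarith)]
    congr 1
    · rw [← sum_add_distrib]
      refine sum_congr rfl fun x _ => ?_
      exact split (by linarith) (by linarith) _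
    · rw [← sum_add_distrib]
      refine sum_congr rfl fun x _ => ?_
      exact split (by linarith) (by linarith) _
  have h3 : ∑ x ∈ H, ∑ y ∈ H, k x y ≤ C1 * (X * Real.log X) := hblk X hX
  -- the cross terms
  set N1 := ∑ x ∈ (ZZ (X + 1)).filter (fun x => X - 1 < x.im), mu x with hN1
  have hN1le : N1 ≤ C2 * Real.log X := hnear X (by linarith)
  have hN10 : 0 ≤ N1 := sum_nonneg fun x _ => mu_nonneg x
  have hmemH : ∀ y ∈ H, X < y.im := fun y hy => by
    rw [hH, mem_Zf good_zeta (by linarith)] at hy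
    exact hy.2.2.1
  have h4 : ∑ x ∈ ZZ X, ∑ y ∈ H, k x y ≤ N1 * N1 := by
    have a1 : ∑ x ∈ ZZ X, ∑ y ∈ H, k x y ≤ ∑ x ∈ (ZZ X).filter (fun x => X - 1 < x.im),
        ∑ y ∈ H.filter (fun y => y.im ≤ X + 1), mu x * mu y := by
      rw [sum_filter]
      refine sum_le_sum fun x hx => ?_
      by_cases hx1 : X - 1 < x.im
      · rw [if_pos hx1, sum_filter (s := H) (fun y => y.im ≤ X + 1) (fun y => mu x * mu y)]
        refine sum_le_sum fun y hy => ?_
        have hxX : x.im ≤ X := (mem_ZZ.1 hx).2.2.2.1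
        by_cases hy1 : y.im ≤ X + 1
        · rw [if_pos hy1]
          simp only [hk]
          exact mul_le_of_le_one_right (mul_nonneg (mu_nonneg x) (mu_nonneg y)) (ite_le_one _)
        · rw [if_neg hy1]
          simp only [hk]
          rw [if_neg, mul_zero]
          intro h
          have h5 : |x.im - y.im| ≤ 1 := h.trans (by rw [div_le_one (by linarith)]; exact hL)
          rw [abs_le] at h5
          push Not at hy1
          linarith [h5.1]
      · rw [if_neg hx1]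
        refine le_of_eq (sum_eq_zero fun y hy => ?_)
        have hyX : X < y.im := hmemH y hy
        simp only [hk]
        rw [if_neg, mul_zero]
        intro h
        have h5 : |x.im - y.im| ≤ 1 := h.trans (by rw [div_le_one (by linarith)]; exact hL)
        rw [abs_le] at h5
        push Not at hx1
        linarith [h5.1]
    refine a1.trans ?_
    rw [← sum_mul_sum]
    have a2 : ∑ x ∈ (ZZ X).filter (fun x => X - 1 < x.im), mu x ≤ N1 := by
      refine sum_le_sum_of_subset_of_nonneg ?_ fun x _ _ => mu_nonneg x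
      exact filter_subset_filter _ (ZZ_mono (by linarith))
    have a3 : ∑ y ∈ H.filter (fun y => y.im ≤ X + 1), mu y ≤ N1 := by
      refine sum_le_sum_of_subset_of_nonneg ?_ fun x _ _ => mu_nonneg x
      intro y hy
      rw [mem_filter, hH, mem_Zf good_zeta (by linarith)] at hy
      obtain ⟨⟨b1, b2, b3, b4, b5⟩, b6⟩ := hy
      rw [mem_filter, mem_ZZ]
      exact ⟨⟨b1, b2, by linarith, b6, b5⟩, by linarith⟩
    exact mul_le_mul a2 a3 (sum_nonneg fun x _ => mu_nonneg x) hN10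
  have h5 : ∑ x ∈ H, ∑ y ∈ ZZ X, k x y = ∑ x ∈ ZZ X, ∑ y ∈ H, k x y := by
    rw [sum_comm]
    refine sum_congr rfl fun x _ => sum_congr rfl fun y _ => ?_
    simp only [hk]
    rw [abs_sub_comm, mul_comm (mu y)]
  have h6 : N1 * N1 ≤ C2 ^ 2 * (X * Real.log X) := by
    calc N1 * N1 ≤ (C2 * Real.log X) * (C2 * Real.log X) :=
          mul_le_mul hN1le hN1le hN10 (hN10.trans hN1le)
      _ = C2 ^ 2 * (Real.log X * Real.log X) := by ring
      _ ≤ C2 ^ 2 * (X * Real.log X) := by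
          refine mul_le_mul_of_nonneg_left ?_ (by positivity)
          exact mul_le_mul_of_nonneg_right hLX (by linarith)
  have h7 : ∑ x ∈ ZZ X, ∑ y ∈ ZZ X, k x y = Qpair X := rfl
  have h8 : (C1 + 2 * C2 ^ 2) * (X * Real.log X) =
      C1 * (X * Real.log X) + 2 * (C2 ^ 2 * (X * Real.log X)) := by ring
  rw [h8]
  linarith

theorem u3 : ∃ P T0 : ℝ, 0 < P ∧ 100 ≤ T0 ∧ ∀ T : ℝ, T0 ≤ T → Qpair T ≤ P * (T * Real.log T) := by
  classical
  obtain ⟨C, T0, hC, hT0, hstep⟩ := q_step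
  set A := (∑ x ∈ ZZ (3 / 2 * T0), mu x) * (∑ x ∈ ZZ (3 / 2 * T0), mu x) with hA
  have hA1 : 0 ≤ ∑ x ∈ ZZ (3 / 2 * T0), mu x := sum_nonneg fun x _ => mu_nonneg x
  have hA0 : 0 ≤ A := mul_nonneg hA1 hA1
  refine ⟨A + 2 * C, T0, by positivity, hT0, fun T hT => ?_⟩
  exact recur Qpair T0 A C (by linarith) hA0 hC.le (by
    intro U hU1 hU2
    have a1 : ∑ x ∈ ZZ U, mu x ≤ ∑ x ∈ ZZ (3 / 2 * T0), mu x :=
      sum_le_sum_of_subset_of_nonneg (ZZ_mono hU2) fun x _ _ => mu_nonneg x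
    have a2 : Qpair U ≤ (∑ x ∈ ZZ U, mu x) * (∑ x ∈ ZZ U, mu x) := by
      rw [sum_mul_sum]
      unfold Qpair
      refine sum_le_sum fun x _ => sum_le_sum fun y _ => ?_
      exact mul_le_of_le_one_right (mul_nonneg (mu_nonneg x) (mu_nonneg y)) (ite_le_one _)
    refine a2.trans ?_
    rw [hA]
    exact mul_le_mul a1 a1 (sum_nonneg fun x _ => mu_nonneg x) hA1) hstep T hT

end Pool.Agent.TH801.LU
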